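import Pool.Agent.Q199.JT.Seg

/-!
# The James spaces and their duals, as named types
-/

set_option autoImplicit false

namespace Pool.Agent.Q199.JT

/-- The completion of the space of the finitely supported functions in the norm `nrm`. -/
def Bs {α : Type} (S : SegSys α) : Type := S.Bn

/-- the norm of the completion -/
noncomputable def bsN {α : Type} (S : SegSys α) : NormedAddCommGroup S.Bn := inferInstance

/-- the scalar multiplication of the completion -/
noncomputable def bsM {α : Type} (S : SegSys α) : NormedSpace ℝ S.Bn := inferInstance

noncomputable instance {α : Type} (S : SegSys α) : NormedAddCommGroup (Bs S) := bsN S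

noncomputable instance {α : Type} (S : SegSys α) : NormedSpace ℝ (Bs S) := bsM S

/-- The dual space of the completion, with the operator norm. -/
def Ds {α : Type} (S : SegSys α) : Type := StrongDual ℝ (Bs S)

/-- the operator norm -/
noncomputable def dsN {α : Type} (S : SegSys α) : NormedAddCommGroup (StrongDual ℝ (Bs S)) :=
  inferInstance

/-- the scalar multiplication of the dual -/
noncomputable def dsM {α : Type} (S : SegSys α) : NormedSpace ℝ (StrongDual ℝ (Bs S)) :=
  inferInstance

noncomputable instance {α : Type} (S : SegSys α) : NormedAddCommGroup (Ds S) := dsN S

noncomputable instance {α : Type} (S : SegSys α) : NormedSpace ℝ (Ds S) := dsM S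

end Pool.Agent.Q199.JT
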