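import Pool.Agent.Q199.JT.Seq

/-!
# Estimates for the sequence
-/

set_option autoImplicit false
open Filter Topology Finset

namespace Pool.Agent.Q199.JT

open Pool.Agent.H585R4.JT Pool.Agent.H511R3.JT

variable {Y : Type} [NormedAddCommGroup Y] [NormedSpace ℝ Y]

theorem bb_tail_le (γ : ℕ → Bool) (m : ℕ) (x : V ℝ) : |bb γ x - ev (bn γ m) x| ≤ ‖x‖ := by
  rw [← bb_QQ, ← Real.norm_eq_abs]
  exact (bb_le γ _).trans (QQ_le m x)

theorem Lam_rem (E : Y →L[ℝ] Wd) (f g : Wd) (α : (ℕ → Bool) → ℝ)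
    (hL : ∀ γ, Lam γ g = α γ - Lam γ f) (a : Pt Y) (γ : ℕ → Bool) :
    Lam γ (rem E f g a) = Lam γ (E a.y) - α γ := by
  unfold rem
  rw [map_sub, map_sub, Lam_comp_QQ, hL]
  ring

open scoped Classical in
theorem rem_bound {E : Y →L[ℝ] Wd} {f g : Wd} {α : (ℕ → Bool) → ℝ} {γ₀ : ℕ → Bool} {M : ℝ}
    {ε : ℕ → ℝ} (hε : ∀ n, 0 < ε n) (hL : ∀ γ, Lam γ g = α γ - Lam γ f) {a : Pt Y}
    (ha : Good E f g α γ₀ M ε a) {K : ℝ} (hK : ‖rem E f g a‖ ≤ K) (x : V ℝ) :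
    |rem E f g a x| ≤ 3 * ε a.n * ‖x‖ + K * ‖QQ a.m x - QQ a.m' x‖ +
      K * Real.sqrt (∑ γ ∈ a.G' \ a.Gp, ‖bb γ x - ev (bn γ a.m') x‖ ^ 2) := by
  classical
  set r := rem E f g a with hr
  have hr0 : 0 ≤ ‖r‖ := ContinuousLinearMap.opNorm_nonneg _
  have hK0 : 0 ≤ K := hr0.trans hK
  have h1 : |r (PP a.m x)| ≤ ε a.n * ‖x‖ := by
    have e1 : r (PP a.m x) = (E a.y - f) (PP a.m x) := by
      rw [hr]
      unfold rem
      rw [_root_.sub_apply]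
      show (E a.y - f) (PP a.m x) - g (QQ a.m (PP a.m x)) = _
      rw [QQ_PP le_rfl, map_zero, sub_zero]
    rw [e1]
    exact ha.low x
  have h2 : |r (QQ a.m x - QQ a.m' x)| ≤ K * ‖QQ a.m x - QQ a.m' x‖ := by
    rw [← Real.norm_eq_abs]
    exact (r.le_opNorm _).trans (mul_le_mul_of_nonneg_right hK (norm_nonneg _))
  have h3 := ha.tail x
  rw [← hr] at h3
  have h4 : |∑ γ ∈ a.Gp, Lam γ r * (bb γ x - ev (bn γ a.m') x)| ≤ ε a.n * ‖x‖ := by
    have hc : (0 : ℝ) < a.Gp.card + 1 := by positivity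
    calc |∑ γ ∈ a.Gp, Lam γ r * (bb γ x - ev (bn γ a.m') x)|
        ≤ ∑ γ ∈ a.Gp, |Lam γ r * (bb γ x - ev (bn γ a.m') x)| := Finset.abs_sum_le_sum_abs _ _
      _ ≤ ∑ γ ∈ a.Gp, ε a.n / (a.Gp.card + 1) * ‖x‖ := by
          apply Finset.sum_le_sum
          intro γ hγ
          rw [abs_mul]
          have e1 := ha.ctrl γ hγ
          rw [← Lam_rem E f g α hL a γ] at e1
          exact mul_le_mul e1 (bb_tail_le γ _ x) (abs_nonneg _) (div_pos (hε _) hc).le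
      _ = (a.Gp.card / (a.Gp.card + 1)) * (ε a.n * ‖x‖) := by
          rw [Finset.sum_const, nsmul_eq_mul]
          ring
      _ ≤ 1 * (ε a.n * ‖x‖) := by
          apply mul_le_mul_of_nonneg_right _ (mul_nonneg (hε _).le (norm_nonneg _))
          rw [div_le_one hc]
          linarith
      _ = ε a.n * ‖x‖ := one_mul _
  have h5 : |∑ γ ∈ a.G' \ a.Gp, Lam γ r * (bb γ x - ev (bn γ a.m') x)| ≤
      K * Real.sqrt (∑ γ ∈ a.G' \ a.Gp, ‖bb γ x - ev (bn γ a.m') x‖ ^ 2) := by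
    calc |∑ γ ∈ a.G' \ a.Gp, Lam γ r * (bb γ x - ev (bn γ a.m') x)|
        ≤ ∑ γ ∈ a.G' \ a.Gp, |Lam γ r * (bb γ x - ev (bn γ a.m') x)| := Finset.abs_sum_le_sum_abs _ _
      _ = ∑ γ ∈ a.G' \ a.Gp, ‖bb γ x - ev (bn γ a.m') x‖ * ‖Lam γ r‖ := by
          apply Finset.sum_congr rfl
          intro γ _
          rw [abs_mul, mul_comm, Real.norm_eq_abs, Real.norm_eq_abs]
      _ ≤ Real.sqrt (∑ γ ∈ a.G' \ a.Gp, ‖bb γ x - ev (bn γ a.m') x‖ ^ 2) * K := by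
          apply cs_bound _ _ _ K (fun _ => norm_nonneg _) (fun _ => norm_nonneg _) hK0
          exact (sum_Lam_le _ r).trans (pow_le_pow_left₀ hr0 hK 2)
      _ = _ := mul_comm _ _
  have h6 : ∑ γ ∈ a.G', Lam γ r * (bb γ x - ev (bn γ a.m') x) =
      ∑ γ ∈ a.G' \ a.Gp, Lam γ r * (bb γ x - ev (bn γ a.m') x) +
        ∑ γ ∈ a.Gp, Lam γ r * (bb γ x - ev (bn γ a.m') x) := (Finset.sum_sdiff ha.sub).symm
  have h7 : r x = r (PP a.m x) + r (QQ a.m x - QQ a.m' x) + r (QQ a.m' x) := by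
    rw [← map_add, ← map_add]
    congr 1
    have := PP_add_QQ a.m x
    rw [add_assoc, sub_add_cancel, this]
  rw [h6] at h3
  rw [h7]
  rw [abs_le] at h1 h2 h3 h4 h5 ⊢
  constructor
  · linarith [h1.1, h2.1, h3.1, h4.1, h5.1]
  · linarith [h1.2, h2.2, h3.2, h4.2, h5.2]

/-- square summability of the remainders -/
theorem rem_sq {E : Y →L[ℝ] Wd} {f g : Wd} {α : (ℕ → Bool) → ℝ} {γ₀ : ℕ → Bool} {M : ℝ}
    {ε : ℕ → ℝ} (hε : ∀ n, 0 < ε n) (hanti : Antitone ε) (hsum : Summable (fun n => (3 * ε n) ^ 2))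
    (hL : ∀ γ, Lam γ g = α γ - Lam γ f) {a : ℕ → Pt Y}
    (ha : ∀ k, Good E f g α γ₀ M ε (a k)) (hb : ∀ i k, i < k → Bef E α γ₀ ε (a i) (a k))
    {K : ℝ} (hK0 : 0 ≤ K) (hK : ∀ k, ‖rem E f g (a k)‖ ≤ K) :
    ∃ R : ℝ, 0 ≤ R ∧ ∀ (T : Finset ℕ) (x : V ℝ), ∑ k ∈ T, (rem E f g (a k) x) ^ 2 ≤ R * ‖x‖ ^ 2 := by
  classical
  have hn : ∀ k, k ≤ (a k).n := by
    intro k
    induction k with
    | zero => exact Nat.zero_le _
    | succ k ih => exact Nat.succ_le_of_lt (lt_of_le_of_lt ih (hb k (k + 1) (Nat.lt_succ_self k)).n_lt)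
  set D : ℝ := ∑' n, (3 * ε n) ^ 2 with hD
  have hD0 : 0 ≤ D := tsum_nonneg fun n => by positivity
  refine ⟨3 * (D + K ^ 2 + K ^ 2), by positivity, fun T x => ?_⟩
  have hmm : ∀ k, (a k).m ≤ (a k).m' := fun k => (ha k).m_lt_l.le.trans (ha k).l_le
  -- the three sums
  have hA : ∑ k ∈ T, (3 * ε k * ‖x‖) ^ 2 ≤ D * ‖x‖ ^ 2 := by
    have : ∀ k ∈ T, (3 * ε k * ‖x‖) ^ 2 = (3 * ε k) ^ 2 * ‖x‖ ^ 2 := fun k _ => by ring
    rw [Finset.sum_congr rfl this, ← Finset.sum_mul]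
    exact mul_le_mul_of_nonneg_right (hsum.sum_le_tsum T fun n _ => by positivity) (by positivity)
  have hB : ∑ k ∈ T, ‖QQ (a k).m x - QQ (a k).m' x‖ ^ 2 ≤ ‖x‖ ^ 2 := by
    apply bands T (fun k => (a k).m) (fun k => (a k).m') (fun k _ => hmm k)
    rintro i _ j _ hij k ⟨⟨h1, h2⟩, ⟨h3, h4⟩⟩
    rcases lt_or_gt_of_ne hij with h | h
    · have := (hb i j h).m_le
      omega
    · have := (hb j i h).m_le
      omega
  have hC : ∑ k ∈ T, (Real.sqrt (∑ γ ∈ (a k).G' \ (a k).Gp, ‖bb γ x - ev (bn γ (a k).m') x‖ ^ 2)) ^ 2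
      ≤ ‖x‖ ^ 2 := by
    have e1 : ∀ k ∈ T, (Real.sqrt (∑ γ ∈ (a k).G' \ (a k).Gp, ‖bb γ x - ev (bn γ (a k).m') x‖ ^ 2)) ^ 2
        = ∑ γ ∈ (a k).G' \ (a k).Gp, ‖bb γ x - ev (bn γ (a k).m') x‖ ^ 2 := fun k _ =>
      Real.sq_sqrt (Finset.sum_nonneg fun _ _ => by positivity)
    rw [Finset.sum_congr rfl e1]
    have e2 := Finset.sum_sigma T (fun k => (a k).G' \ (a k).Gp)
      (fun p : (_ : ℕ) × (ℕ → Bool) => ‖bb p.2 x - ev (bn p.2 (a p.1).m') x‖ ^ 2)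
    rw [← e2]
    apply sum_bb_idx (T.sigma fun k => (a k).G' \ (a k).Gp) (fun p => p.2) (fun p => (a p.1).m')
    rintro ⟨i, γ⟩ hi ⟨j, γ'⟩ hj hne n hni hnj
    rw [Finset.mem_sigma, Finset.mem_sdiff] at hi hj
    simp only at hi hj hni hnj ⊢
    rcases lt_trichotomy i j with h | h | h
    · have h1 : γ ∈ (a j).Gp := (hb i j h).G_sub hi.2.1
      have h2 : γ ≠ γ' := fun h3 => hj.2.2 (h3 ▸ h1)
      exact (ha j).sep γ ((ha j).sub h1) γ' hj.2.1 h2 n hnj.le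
    · subst h
      have h2 : γ ≠ γ' := fun h3 => hne (by rw [h3])
      exact (ha i).sep γ hi.2.1 γ' hj.2.1 h2 n hni.le
    · have h1 : γ' ∈ (a i).Gp := (hb j i h).G_sub hj.2.1
      have h2 : γ ≠ γ' := fun h3 => hi.2.2 (h3 ▸ h1)
      exact (ha i).sep γ hi.2.1 γ' ((ha i).sub h1) h2 n hni.le
  have hpt : ∀ k ∈ T, (rem E f g (a k) x) ^ 2 ≤ 3 * ((3 * ε k * ‖x‖) ^ 2 +
      K ^ 2 * ‖QQ (a k).m x - QQ (a k).m' x‖ ^ 2 +
      K ^ 2 * (Real.sqrt (∑ γ ∈ (a k).G' \ (a k).Gp, ‖bb γ x - ev (bn γ (a k).m') x‖ ^ 2)) ^ 2) := by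
    intro k _
    have h1 := rem_bound hε hL (ha k) (hK k) x
    have h2 : 3 * ε (a k).n * ‖x‖ ≤ 3 * ε k * ‖x‖ :=
      mul_le_mul_of_nonneg_right (mul_le_mul_of_nonneg_left (hanti (hn k)) (by norm_num))
        (norm_nonneg _)
    set A := 3 * ε k * ‖x‖ with hA'
    set Bk := ‖QQ (a k).m x - QQ (a k).m' x‖ with hBk
    set Ck := Real.sqrt (∑ γ ∈ (a k).G' \ (a k).Gp, ‖bb γ x - ev (bn γ (a k).m') x‖ ^ 2) with hCk
    have hA0 : 0 ≤ A := mul_nonneg (mul_nonneg (by norm_num) (hε k).le) (norm_nonneg _)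
    have hB0 : 0 ≤ Bk := norm_nonneg _
    have hC0 : 0 ≤ Ck := Real.sqrt_nonneg _
    have h3 : |rem E f g (a k) x| ≤ A + K * Bk + K * Ck := by linarith
    have h4 : (rem E f g (a k) x) ^ 2 ≤ (A + K * Bk + K * Ck) ^ 2 := by
      rw [← sq_abs]
      exact pow_le_pow_left₀ (abs_nonneg _) h3 2
    have h5 : (A + K * Bk + K * Ck) ^ 2 ≤ 3 * (A ^ 2 + K ^ 2 * Bk ^ 2 + K ^ 2 * Ck ^ 2) := by
      nlinarith [sq_nonneg (A - K * Bk), sq_nonneg (A - K * Ck), sq_nonneg (K * Bk - K * Ck)]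
    exact h4.trans h5
  calc ∑ k ∈ T, (rem E f g (a k) x) ^ 2 ≤ ∑ k ∈ T, 3 * ((3 * ε k * ‖x‖) ^ 2 +
      K ^ 2 * ‖QQ (a k).m x - QQ (a k).m' x‖ ^ 2 +
      K ^ 2 * (Real.sqrt (∑ γ ∈ (a k).G' \ (a k).Gp, ‖bb γ x - ev (bn γ (a k).m') x‖ ^ 2)) ^ 2) :=
        Finset.sum_le_sum hpt
    _ = 3 * (∑ k ∈ T, (3 * ε k * ‖x‖) ^ 2 + K ^ 2 * ∑ k ∈ T, ‖QQ (a k).m x - QQ (a k).m' x‖ ^ 2 +
      K ^ 2 * ∑ k ∈ T,
        (Real.sqrt (∑ γ ∈ (a k).G' \ (a k).Gp, ‖bb γ x - ev (bn γ (a k).m') x‖ ^ 2)) ^ 2) := by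
        rw [← Finset.mul_sum, Finset.sum_add_distrib, Finset.sum_add_distrib, ← Finset.mul_sum,
          ← Finset.mul_sum]
    _ ≤ 3 * (D * ‖x‖ ^ 2 + K ^ 2 * ‖x‖ ^ 2 + K ^ 2 * ‖x‖ ^ 2) := by
        apply mul_le_mul_of_nonneg_left _ (by norm_num)
        exact add_le_add (add_le_add hA (mul_le_mul_of_nonneg_left hB (by positivity)))
          (mul_le_mul_of_nonneg_left hC (by positivity))
    _ = 3 * (D + K ^ 2 + K ^ 2) * ‖x‖ ^ 2 := by ring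

/-- The sequence used in the main theorem. -/
theorem exists_good_seq [CompleteSpace Y] (E : Y →L[ℝ] Wd) {c : ℝ} (hc : 0 < c)
    (hE : ∀ y, c * ‖y‖ ≤ ‖E y‖)
    (hY : ¬ Function.Surjective (NormedSpace.inclusionInDoubleDual ℝ Y)) :
    ∃ (γ₀ : ℕ → Bool) (c₀ : ℝ) (y : ℕ → Y) (l : ℕ → ℕ) (C : ℝ), c₀ ≠ 0 ∧ 0 ≤ C ∧ StrictMono l ∧
      1 ≤ l 0 ∧
      (∀ (S : Finset (ℕ × ℕ)), (∀ i ∈ S, i.1 < i.2) →
        (∀ i ∈ S, ∀ j ∈ S, i ≠ j → i.2 ≤ j.1 ∨ j.2 ≤ i.1) → ∀ x : V ℝ,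
        ∑ i ∈ S, ((E (y i.1)) x - (E (y i.2)) x) ^ 2 ≤ C * ‖x‖ ^ 2) ∧
      (∀ i k, |(E (y i)) (ee (bn γ₀ (l k))) - (E (y (i + 1))) (ee (bn γ₀ (l k))) -
        (if i = k then c₀ else 0)| ≤ |c₀| / 8 * ((1 / 2) ^ i * (1 / 2) ^ k)) := by
  classical
  obtain ⟨θ, hθ⟩ : ∃ θ, θ ∉ Set.range (NormedSpace.inclusionInDoubleDual ℝ Y) := by
    by_contra hcon
    push Not at hcon
    exact hY fun θ => hcon θ
  obtain ⟨γ₀, hγ₀⟩ := exists_gap E hc hE θ hθ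
  set f := fth E θ with hf
  set α : (ℕ → Bool) → ℝ := fun γ => θ (pull E (Lam γ)) with hα
  obtain ⟨_, g, _, hg⟩ := lift (fun γ => α γ - Lam γ f) (gap_sq E θ)
  set c₀ : ℝ := α γ₀ - Lam γ₀ f with hc₀
  have hc₀ne : c₀ ≠ 0 := sub_ne_zero.2 hγ₀
  have habs : 0 < |c₀| := abs_pos.2 hc₀ne
  obtain ⟨M, hM0, hM⟩ := exists_steps E θ γ₀ g
  set ε : ℕ → ℝ := fun n => |c₀| / 24 * (1 / 4) ^ n with hεd
  have hε : ∀ n, 0 < ε n := fun n => by positivity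
  have hanti : Antitone ε := by
    apply antitone_nat_of_succ_le
    intro n
    simp only [hεd]
    apply mul_le_mul_of_nonneg_left _ (by positivity)
    rw [pow_succ]
    have : (0 : ℝ) < (1 / 4) ^ n := by positivity
    linarith
  have hsum : Summable (fun n => (3 * ε n) ^ 2) := by
    have h1 : (fun n => (3 * ε n) ^ 2) = fun n => (|c₀| / 8) ^ 2 * ((1 / 16 : ℝ)) ^ n := by
      funext n
      have h2 : ((1 : ℝ) / 16) ^ n = ((1 / 4) ^ n) ^ 2 := by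
        rw [← pow_mul, mul_comm, pow_mul]
        norm_num
      simp only [hεd]
      rw [h2]
      ring
    rw [h1]
    exact (summable_geometric_of_lt_one (by norm_num) (by norm_num)).mul_left _
  obtain ⟨a, ha, hb⟩ := hM ε hε
  have hn : ∀ k, k ≤ (a k).n := by
    intro k
    induction k with
    | zero => exact Nat.zero_le _
    | succ k ih => exact Nat.succ_le_of_lt (lt_of_le_of_lt ih (hb k (k + 1) (Nat.lt_succ_self k)).n_lt)
  have hεk : ∀ k, ε (a k).n ≤ ε k := fun k => hanti (hn k)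
  -- uniform bound of the remainders
  set K : ℝ := ‖E‖ * M + ‖f‖ + ‖g‖ with hK
  have hE0 : 0 ≤ ‖E‖ := ContinuousLinearMap.opNorm_nonneg _
  have hf0 : 0 ≤ ‖f‖ := ContinuousLinearMap.opNorm_nonneg _
  have hg0 : 0 ≤ ‖g‖ := ContinuousLinearMap.opNorm_nonneg _
  have hK0 : 0 ≤ K := by positivity
  have hrem : ∀ k, ‖rem E f g (a k)‖ ≤ K := by
    intro k
    apply ContinuousLinearMap.opNorm_le_bound _ hK0
    intro x
    have e1 : rem E f g (a k) x = E (a k).y x - f x - g (QQ (a k).m x) := rfl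
    rw [e1, Real.norm_eq_abs]
    have h1 : |E (a k).y x| ≤ ‖E‖ * M * ‖x‖ := by
      rw [← Real.norm_eq_abs]
      refine (ContinuousLinearMap.le_opNorm _ _).trans ?_
      apply mul_le_mul_of_nonneg_right _ (norm_nonneg _)
      exact (E.le_opNorm _).trans (mul_le_mul_of_nonneg_left (ha k).norm_le hE0)
    have h2 : |f x| ≤ ‖f‖ * ‖x‖ := by
      rw [← Real.norm_eq_abs]
      exact f.le_opNorm _
    have h3 : |g (QQ (a k).m x)| ≤ ‖g‖ * ‖x‖ := by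
      rw [← Real.norm_eq_abs]
      exact (g.le_opNorm _).trans (mul_le_mul_of_nonneg_left (QQ_le _ x) hg0)
    calc |E (a k).y x - f x - g (QQ (a k).m x)| ≤ |E (a k).y x - f x| + |g (QQ (a k).m x)| :=
          abs_sub _ _
      _ ≤ (|E (a k).y x| + |f x|) + |g (QQ (a k).m x)| := add_le_add (abs_sub _ _) le_rfl
      _ ≤ (‖E‖ * M * ‖x‖ + ‖f‖ * ‖x‖) + ‖g‖ * ‖x‖ := add_le_add (add_le_add h1 h2) h3
      _ = K * ‖x‖ := by rw [hK]; ring
  obtain ⟨R, hR0, hR⟩ := rem_sq hε hanti hsum hg ha hb hK0 hrem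
  have hmm : ∀ k, (a k).m ≤ (a k).m' := fun k => (ha k).m_lt_l.le.trans (ha k).l_le
  have hmono : Monotone (fun k => (a k).m) := by
    apply monotone_nat_of_le_succ
    intro k
    exact (hmm k).trans (hb k (k + 1) (Nat.lt_succ_self k)).m_le
  refine ⟨γ₀, c₀, fun k => (a k).y, fun k => (a k).l, 3 * (‖g‖ ^ 2 + R + R), hc₀ne, by positivity,
    ?_, ?_, ?_, ?_⟩
  · apply strictMono_nat_of_lt_succ
    intro k
    exact lt_of_le_of_lt ((ha k).l_le.trans (hb k (k + 1) (Nat.lt_succ_self k)).m_le)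
      (ha (k + 1)).m_lt_l
  · have := (ha 0).m_lt_l
    show 1 ≤ (a 0).l
    omega
  · intro S hS hd x
    have hpt : ∀ i ∈ S, ((E (a i.1).y) x - (E (a i.2).y) x) ^ 2 ≤
        3 * (‖g‖ ^ 2 * ‖QQ (a i.1).m x - QQ (a i.2).m x‖ ^ 2 + (rem E f g (a i.1) x) ^ 2 +
          (rem E f g (a i.2) x) ^ 2) := by
      intro i _
      have e1 : (E (a i.1).y) x - (E (a i.2).y) x = g (QQ (a i.1).m x - QQ (a i.2).m x) +
          rem E f g (a i.1) x - rem E f g (a i.2) x := by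
        have e2 : rem E f g (a i.1) x = E (a i.1).y x - f x - g (QQ (a i.1).m x) := rfl
        have e3 : rem E f g (a i.2) x = E (a i.2).y x - f x - g (QQ (a i.2).m x) := rfl
        rw [e2, e3, map_sub]
        ring
      have h1 : (g (QQ (a i.1).m x - QQ (a i.2).m x)) ^ 2 ≤
          ‖g‖ ^ 2 * ‖QQ (a i.1).m x - QQ (a i.2).m x‖ ^ 2 := by
        rw [← mul_pow, ← sq_abs, ← Real.norm_eq_abs]
        exact pow_le_pow_left₀ (norm_nonneg _) (g.le_opNorm _) 2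
      rw [e1]
      nlinarith [sq_nonneg (g (QQ (a i.1).m x - QQ (a i.2).m x) - rem E f g (a i.1) x),
        sq_nonneg (g (QQ (a i.1).m x - QQ (a i.2).m x) + rem E f g (a i.2) x),
        sq_nonneg (rem E f g (a i.1) x + rem E f g (a i.2) x)]
    have hA : ∑ i ∈ S, ‖QQ (a i.1).m x - QQ (a i.2).m x‖ ^ 2 ≤ ‖x‖ ^ 2 := by
      apply bands S (fun i => (a i.1).m) (fun i => (a i.2).m) (fun i hi => hmono (hS i hi).le)
      rintro i hi j hj hij k ⟨⟨h1, h2⟩, ⟨h3, h4⟩⟩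
      rcases hd i hi j hj hij with h | h
      · have : (a i.2).m ≤ (a j.1).m := hmono h
        omega
      · have : (a j.2).m ≤ (a i.1).m := hmono h
        omega
    have hB : ∑ i ∈ S, (rem E f g (a i.1) x) ^ 2 ≤ R * ‖x‖ ^ 2 := by
      have hinj : Set.InjOn (fun i : ℕ × ℕ => i.1) (S : Set (ℕ × ℕ)) := by
        intro i hi j hj hij
        by_contra hne
        have h1 := hS i hi
        have h2 := hS j hj
        simp only at hij
        rcases hd i hi j hj hne with h | h <;> omega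
      have e1 := Finset.sum_image (f := fun k => (rem E f g (a k) x) ^ 2) hinj
      rw [← e1]
      exact hR _ x
    have hC : ∑ i ∈ S, (rem E f g (a i.2) x) ^ 2 ≤ R * ‖x‖ ^ 2 := by
      have hinj : Set.InjOn (fun i : ℕ × ℕ => i.2) (S : Set (ℕ × ℕ)) := by
        intro i hi j hj hij
        by_contra hne
        have h1 := hS i hi
        have h2 := hS j hj
        simp only at hij
        rcases hd i hi j hj hne with h | h <;> omega
      have e1 := Finset.sum_image (f := fun k => (rem E f g (a k) x) ^ 2) hinj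
      rw [← e1]
      exact hR _ x
    calc ∑ i ∈ S, ((E (a i.1).y) x - (E (a i.2).y) x) ^ 2
        ≤ ∑ i ∈ S, 3 * (‖g‖ ^ 2 * ‖QQ (a i.1).m x - QQ (a i.2).m x‖ ^ 2 + (rem E f g (a i.1) x) ^ 2 +
          (rem E f g (a i.2) x) ^ 2) := Finset.sum_le_sum hpt
      _ = 3 * (‖g‖ ^ 2 * ∑ i ∈ S, ‖QQ (a i.1).m x - QQ (a i.2).m x‖ ^ 2 +
          ∑ i ∈ S, (rem E f g (a i.1) x) ^ 2 + ∑ i ∈ S, (rem E f g (a i.2) x) ^ 2) := by
          rw [← Finset.mul_sum, Finset.sum_add_distrib, Finset.sum_add_distrib, ← Finset.mul_sum]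
      _ ≤ 3 * (‖g‖ ^ 2 * ‖x‖ ^ 2 + R * ‖x‖ ^ 2 + R * ‖x‖ ^ 2) := by
          apply mul_le_mul_of_nonneg_left _ (by norm_num)
          exact add_le_add (add_le_add (mul_le_mul_of_nonneg_left hA (by positivity)) hB) hC
      _ = 3 * (‖g‖ ^ 2 + R + R) * ‖x‖ ^ 2 := by ring
  · -- the matrix
    have hle : ∀ i k, i ≤ k → |E (a i).y (ee (bn γ₀ (a k).l)) - α γ₀| ≤ ε k := by
      intro i k hik
      rcases lt_or_eq_of_le hik with h | h
      · exact (hb i k h).test.trans (hεk k)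
      · rw [h]
        exact (ha k).testy.trans (hεk k)
    have hgt : ∀ i k, k < i → |E (a i).y (ee (bn γ₀ (a k).l)) - f (ee (bn γ₀ (a k).l))| ≤ ε i := by
      intro i k hik
      have h1 := (ha i).low (ee (bn γ₀ (a k).l))
      have h2 : PP (a i).m (ee (bn γ₀ (a k).l) : V ℝ) = ee (bn γ₀ (a k).l) := by
        apply PP_ee
        rw [length_bn]
        exact (ha k).l_le.trans (hb k i hik).m_le
      rw [h2] at h1
      have h3 : (E (a i).y - f) (ee (bn γ₀ (a k).l)) =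
          E (a i).y (ee (bn γ₀ (a k).l)) - f (ee (bn γ₀ (a k).l)) := rfl
      rw [h3] at h1
      refine h1.trans ?_
      calc ε (a i).n * ‖(ee (bn γ₀ (a k).l) : V ℝ)‖ ≤ ε (a i).n * 1 :=
            mul_le_mul_of_nonneg_left (ee_le _) (hε _).le
        _ = ε (a i).n := mul_one _
        _ ≤ ε i := hεk i
    have hfk : ∀ k, |f (ee (bn γ₀ (a k).l)) - Lam γ₀ f| ≤ ε k := fun k =>
      (ha k).testf.trans (hεk k)
    have hmax : ∀ i k j : ℕ, i ≤ j → k ≤ j → 3 * ε j ≤ |c₀| / 8 * ((1 / 2) ^ i * (1 / 2) ^ k) := by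
      intro i k j hi hk
      have h1 : ((1 : ℝ) / 4) ^ j = (1 / 2) ^ j * (1 / 2) ^ j := by
        rw [← mul_pow]
        norm_num
      have h2 : ((1 : ℝ) / 2) ^ j ≤ (1 / 2) ^ i :=
        pow_le_pow_of_le_one (by norm_num) (by norm_num) hi
      have h3 : ((1 : ℝ) / 2) ^ j ≤ (1 / 2) ^ k :=
        pow_le_pow_of_le_one (by norm_num) (by norm_num) hk
      have h4 : ((1 : ℝ) / 2) ^ j * (1 / 2) ^ j ≤ (1 / 2) ^ i * (1 / 2) ^ k :=
        mul_le_mul h2 h3 (by positivity) (by positivity)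
      simp only [hεd]
      rw [h1]
      nlinarith
    intro i k
    show |E (a i).y (ee (bn γ₀ (a k).l)) - E (a (i + 1)).y (ee (bn γ₀ (a k).l)) -
      (if i = k then c₀ else 0)| ≤ _
    rcases lt_trichotomy i k with h | h | h
    · rw [if_neg h.ne]
      have h1 := hle i k h.le
      have h2 := hle (i + 1) k h
      refine le_trans ?_ (hmax i k k h.le le_rfl)
      rw [abs_le] at h1 h2 ⊢
      have := hε k
      constructor <;> linarith [h1.1, h1.2, h2.1, h2.2]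
    · subst h
      rw [if_pos rfl]
      have h1 := hle i i le_rfl
      have h2 := hgt (i + 1) i (Nat.lt_succ_self i)
      have h3 := hfk i
      have h4 : ε (i + 1) ≤ ε i := hanti (Nat.le_succ i)
      refine le_trans ?_ (hmax i i i le_rfl le_rfl)
      rw [abs_le] at h1 h2 h3 ⊢
      rw [hc₀]
      constructor <;> linarith [h1.1, h1.2, h2.1, h2.2, h3.1, h3.2]
    · rw [if_neg h.ne']
      have h1 := hgt i k h
      have h2 := hgt (i + 1) k (by omega)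
      have h4 : ε (i + 1) ≤ ε i := hanti (Nat.le_succ i)
      refine le_trans ?_ (hmax i k i le_rfl h.le)
      rw [abs_le] at h1 h2 ⊢
      have := hε i
      constructor <;> linarith [h1.1, h1.2, h2.1, h2.2]

end Pool.Agent.Q199.JT
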