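import Pool.Agent.Q199.JT.VD

/-!
# Elements of the bidual of a subspace of the dual of the tree space
-/

set_option autoImplicit false
open Filter Topology Finset

namespace Pool.Agent.Q199.JT

open Pool.Agent.H585R4.JT Pool.Agent.H511R3.JT

section gold

variable {X : Type} [NormedAddCommGroup X] [NormedSpace ℝ X]

/-- Approximation of a functional on the dual by vectors, on finitely many functionals. -/
theorem goldstine (F : StrongDual ℝ (StrongDual ℝ X)) {ι : Type} [Fintype ι]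
    (b : ι → StrongDual ℝ X) (δ : ℝ) (hδ : 0 < δ) :
    ∃ x : X, ‖x‖ ≤ ‖F‖ ∧ ∀ j, |b j x - F (b j)| < δ := by
  classical
  let L : X →ₗ[ℝ] (ι → ℝ) := LinearMap.pi fun j => (b j).toLinearMap
  let S : Set (ι → ℝ) := L '' Metric.closedBall (0 : X) ‖F‖
  let p : ι → ℝ := fun j => F (b j)
  have hS : Convex ℝ S := (convex_closedBall (0 : X) ‖F‖).linear_image L
  by_cases hp : p ∈ closure S
  · obtain ⟨_, ⟨x, hx, rfl⟩, hdist⟩ := Metric.mem_closure_iff.1 hp δ hδ
    refine ⟨x, by simpa using hx, fun j => ?_⟩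
    have h1 : dist (p j) (L x j) ≤ dist p (L x) := dist_le_pi_dist p (L x) j
    have h2 : dist (p j) (L x j) < δ := lt_of_le_of_lt h1 hdist
    rw [Real.dist_eq, abs_sub_comm] at h2
    exact h2
  · exfalso
    obtain ⟨f, u, hf1, hf2⟩ := geometric_hahn_banach_closed_point hS.closure isClosed_closure hp
    let g : StrongDual ℝ X := ∑ j, f (Pi.single j 1) • b j
    have hfv : ∀ v : ι → ℝ, f v = ∑ j, v j * f (Pi.single j 1) := by
      intro v
      conv_lhs => rw [← Finset.univ_sum_single v, map_sum]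
      refine Finset.sum_congr rfl fun j _ => ?_
      have : (Pi.single j (v j) : ι → ℝ) = v j • Pi.single j 1 := by
        rw [← Pi.single_smul]; simp
      rw [this, map_smul, smul_eq_mul]
    have hg : ∀ x, g x = f (L x) := by
      intro x
      rw [hfv]
      simp only [g, _root_.sum_apply]
      refine Finset.sum_congr rfl fun j _ => ?_
      show f (Pi.single j 1) * b j x = L x j * _
      rw [mul_comm]; rfl
    have hFg : F g = f p := by
      rw [hfv]
      simp only [g, map_sum, map_smul, smul_eq_mul]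
      refine Finset.sum_congr rfl fun j _ => ?_
      rw [mul_comm]
    have h1 : ∀ x : X, ‖x‖ ≤ ‖F‖ → g x < u := by
      intro x hx
      rw [hg]
      exact hf1 _ (subset_closure ⟨x, by simpa using hx, rfl⟩)
    have hu : 0 < u := by simpa using h1 0 (by rw [norm_zero]; exact norm_nonneg F)
    have h2 : F g ≤ ‖F‖ * ‖g‖ := (Real.le_norm_self _).trans (F.le_opNorm g)
    rcases (norm_nonneg F).eq_or_lt with h0 | h0
    · rw [← h0, zero_mul, hFg] at h2
      linarith
    · have h3 : ‖g‖ ≤ u / ‖F‖ := by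
        refine g.opNorm_le_bound (by positivity) fun x => ?_
        rcases eq_or_ne x 0 with rfl | hx
        · simp
        have hx' : 0 < ‖x‖ := norm_pos_iff.2 hx
        have h4 : ∀ s : ℝ, |s| = 1 → s * g x ≤ u / ‖F‖ * ‖x‖ := by
          intro s hs
          have h5 := h1 ((s * ‖F‖ / ‖x‖) • x) (by
            rw [norm_smul, Real.norm_eq_abs, abs_div, abs_mul, hs, abs_of_nonneg (norm_nonneg F),
              abs_of_nonneg (norm_nonneg x), one_mul, div_mul_cancel₀ _ hx'.ne'])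
          rw [map_smul, smul_eq_mul] at h5
          have h6 : s * g x = (s * ‖F‖ / ‖x‖ * g x) * (‖x‖ / ‖F‖) := by
            field_simp
          rw [h6]
          calc (s * ‖F‖ / ‖x‖ * g x) * (‖x‖ / ‖F‖) ≤ u * (‖x‖ / ‖F‖) :=
                mul_le_mul_of_nonneg_right h5.le (by positivity)
            _ = u / ‖F‖ * ‖x‖ := by ring
        rw [Real.norm_eq_abs]
        rcases le_or_gt 0 (g x) with h | h
        · rw [abs_of_nonneg h]
          have := h4 1 (by simp)
          linarith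
        · rw [abs_of_neg h]
          have := h4 (-1) (by simp)
          linarith
      have h4 : ‖F‖ * ‖g‖ ≤ u := by
        calc ‖F‖ * ‖g‖ ≤ ‖F‖ * (u / ‖F‖) := mul_le_mul_of_nonneg_left h3 h0.le
          _ = u := by field_simp
      rw [hFg] at h2
      linarith

/-- Goldstine approximations which are exact at one functional. -/
theorem goldstine_exact (F : StrongDual ℝ (StrongDual ℝ X)) (b0 : StrongDual ℝ X) :
    ∃ M : ℝ, 0 ≤ M ∧ ∀ (B : Finset (StrongDual ℝ X)) (δ : ℝ), 0 < δ →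
      ∃ x : X, ‖x‖ ≤ M ∧ b0 x = F b0 ∧ ∀ b ∈ B, |b x - F b| < δ := by
  classical
  have hF0 : 0 ≤ ‖F‖ := ContinuousLinearMap.opNorm_nonneg _
  by_cases h0 : b0 = 0
  · refine ⟨‖F‖, hF0, fun B δ hδ => ?_⟩
    obtain ⟨x, hx, hb⟩ := goldstine F (fun b : B => b.1) δ hδ
    refine ⟨x, hx, ?_, fun b hb' => hb ⟨b, hb'⟩⟩
    rw [h0, map_zero]
    rfl
  · obtain ⟨u0, hu0⟩ : ∃ u0, b0 u0 ≠ 0 := by
      by_contra hc
      push Not at hc
      exact h0 (ContinuousLinearMap.ext hc)
    set u : X := (b0 u0)⁻¹ • u0 with hu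
    have hu1 : b0 u = 1 := by rw [hu, map_smul, smul_eq_mul, inv_mul_cancel₀ hu0]
    refine ⟨‖F‖ + ‖u‖, by positivity, fun B δ hδ => ?_⟩
    set S : ℝ := ∑ b ∈ B, |b u| with hS
    have hS0 : 0 ≤ S := Finset.sum_nonneg fun _ _ => abs_nonneg _
    set δ' : ℝ := min 1 (δ / (1 + S)) with hδ'
    have hδ'0 : 0 < δ' := lt_min one_pos (by positivity)
    obtain ⟨x, hx, hb⟩ := goldstine F (fun b : (insert b0 B : Finset (StrongDual ℝ X)) => b.1) δ' hδ'0
    have hx0 := hb ⟨b0, Finset.mem_insert_self _ _⟩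
    refine ⟨x + (F b0 - b0 x) • u, ?_, ?_, ?_⟩
    · have h1 : ‖(F b0 - b0 x) • u‖ ≤ ‖u‖ := by
        rw [norm_smul, Real.norm_eq_abs, abs_sub_comm]
        have h2 : |b0 x - F b0| ≤ 1 := hx0.le.trans (min_le_left _ _)
        exact mul_le_of_le_one_left (norm_nonneg _) h2
      exact (norm_add_le _ _).trans (add_le_add hx h1)
    · rw [map_add, map_smul, hu1, smul_eq_mul, mul_one]
      ring
    · intro b hbB
      have h1 := hb ⟨b, Finset.mem_insert_of_mem hbB⟩
      have h2 : |b u| ≤ S := Finset.single_le_sum (f := fun b : StrongDual ℝ X => |b u|)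
        (fun _ _ => abs_nonneg _) hbB
      have h3 : b (x + (F b0 - b0 x) • u) - F b = (b x - F b) + (F b0 - b0 x) * b u := by
        rw [map_add, map_smul, smul_eq_mul]
        ring
      rw [h3]
      calc |(b x - F b) + (F b0 - b0 x) * b u| ≤ |b x - F b| + |(F b0 - b0 x) * b u| := abs_add_le _ _
        _ = |b x - F b| + |b0 x - F b0| * |b u| := by rw [abs_mul, abs_sub_comm (F b0)]
        _ < δ' + δ' * S :=
            add_lt_add_of_lt_of_le h1 (mul_le_mul hx0.le h2 (abs_nonneg _) hδ'0.le)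
        _ = δ' * (1 + S) := by ring
        _ ≤ δ / (1 + S) * (1 + S) := mul_le_mul_of_nonneg_right (min_le_right _ _) (by positivity)
        _ = δ := by field_simp

end gold

section claimA

variable {Y : Type} [NormedAddCommGroup Y] [NormedSpace ℝ Y]

/-- the adjoint of an operator into the dual of the tree space -/
noncomputable def pull (E : Y →L[ℝ] Wd) : Wdd →L[ℝ] StrongDual ℝ Y :=
  (ContinuousLinearMap.compL ℝ Y Wd ℝ).flip E

theorem pull_apply (E : Y →L[ℝ] Wd) (φ : Wdd) (y : Y) : pull E φ y = φ (E y) := rfl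

/-- the functional on the tree space given by the values of `θ` at the point evaluations -/
noncomputable def fth (E : Y →L[ℝ] Wd) (θ : StrongDual ℝ (StrongDual ℝ Y)) : Wd :=
  θ.comp ((pull E).comp (NormedSpace.inclusionInDoubleDual ℝ (V ℝ)))

theorem fth_apply (E : Y →L[ℝ] Wd) (θ : StrongDual ℝ (StrongDual ℝ Y)) (x : V ℝ) :
    fth E θ x = θ (pull E (NormedSpace.inclusionInDoubleDual ℝ (V ℝ) x)) := rfl

theorem pull_le (E : Y →L[ℝ] Wd) (θ : StrongDual ℝ (StrongDual ℝ Y)) (w : Wdd) :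
    |θ (pull E w)| ≤ (‖θ‖ * ‖E‖) * ‖w‖ := by
  have h1 : |θ (pull E w)| ≤ ‖θ‖ * ‖pull E w‖ := by
    rw [← Real.norm_eq_abs]
    exact ContinuousLinearMap.le_opNorm _ _
  have h2 : ‖pull E w‖ ≤ ‖w‖ * ‖E‖ := ContinuousLinearMap.opNorm_comp_le w E
  have h3 : 0 ≤ ‖θ‖ := ContinuousLinearMap.opNorm_nonneg _
  calc |θ (pull E w)| ≤ ‖θ‖ * ‖pull E w‖ := h1
    _ ≤ ‖θ‖ * (‖w‖ * ‖E‖) := mul_le_mul_of_nonneg_left h2 h3
    _ = (‖θ‖ * ‖E‖) * ‖w‖ := by ring

/-- the gaps at the branches are square summable -/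
theorem gap_sq (E : Y →L[ℝ] Wd) (θ : StrongDual ℝ (StrongDual ℝ Y)) :
    Summable (fun γ => ‖θ (pull E (Lam γ)) - Lam γ (fth E θ)‖ ^ 2) := by
  classical
  set C : ℝ := ‖θ‖ * ‖E‖ + ‖fth E θ‖ with hC
  have hC1 : 0 ≤ ‖θ‖ * ‖E‖ :=
    mul_nonneg (ContinuousLinearMap.opNorm_nonneg _) (ContinuousLinearMap.opNorm_nonneg _)
  have hC2 : 0 ≤ ‖fth E θ‖ := ContinuousLinearMap.opNorm_nonneg _
  refine summable_of_sum_le (c := C ^ 2) (fun γ => by positivity) (fun G => ?_)
  set d : (ℕ → Bool) → ℝ := fun γ => θ (pull E (Lam γ)) - Lam γ (fth E θ) with hd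
  have h0 : 0 ≤ ∑ γ ∈ G, ‖d γ‖ ^ 2 := Finset.sum_nonneg fun i _ => by positivity
  apply le_sq_of h0
  set w : Wdd := ∑ γ ∈ G, d γ • (Lam γ : Wdd) with hw
  have h1 : ∑ γ ∈ G, ‖d γ‖ ^ 2 = θ (pull E w) - w (fth E θ) := by
    have e1 : θ (pull E w) = ∑ γ ∈ G, d γ * θ (pull E (Lam γ)) := by
      rw [hw, map_sum, map_sum]
      apply Finset.sum_congr rfl
      intro γ _
      rw [map_smul, map_smul]
      rfl
    have e2 : w (fth E θ) = ∑ γ ∈ G, d γ * Lam γ (fth E θ) := by
      rw [hw, _root_.sum_apply]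
      rfl
    rw [e1, e2, ← Finset.sum_sub_distrib]
    apply Finset.sum_congr rfl
    intro γ _
    rw [Real.norm_eq_abs, sq_abs]
    simp only [hd]
    ring
  have h2 := norm_sum_Lam G d
  rw [h1]
  have h3 : θ (pull E w) ≤ (‖θ‖ * ‖E‖) * ‖w‖ := (le_abs_self _).trans (pull_le E θ w)
  have h4 : -(w (fth E θ)) ≤ ‖w‖ * ‖fth E θ‖ := by
    refine (neg_le_abs _).trans ?_
    rw [← Real.norm_eq_abs]
    exact ContinuousLinearMap.le_opNorm _ _
  rw [← hw] at h2
  rw [← h1]
  calc ∑ γ ∈ G, ‖d γ‖ ^ 2 = θ (pull E w) - w (fth E θ) := h1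
    _ ≤ (‖θ‖ * ‖E‖) * ‖w‖ + ‖w‖ * ‖fth E θ‖ := by linarith
    _ = C * ‖w‖ := by rw [hC]; ring
    _ ≤ C * Real.sqrt (∑ γ ∈ G, ‖d γ‖ ^ 2) := mul_le_mul_of_nonneg_left h2 (by positivity)

/-- If there is no gap, the functional `θ` acts through the point `fth`. -/
theorem no_gap (E : Y →L[ℝ] Wd) (θ : StrongDual ℝ (StrongDual ℝ Y))
    (h : ∀ γ, θ (pull E (Lam γ)) = Lam γ (fth E θ)) (φ : Wdd) : θ (pull E φ) = φ (fth E θ) := by
  classical
  obtain ⟨x, hx⟩ := exists_part φ
  set z : Wdd := φ - NormedSpace.inclusionInDoubleDual ℝ (V ℝ) x with hz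
  have hz0 : ∀ s, z (ev s) = 0 := by
    intro s
    show φ (ev s) - ev s x = 0
    rw [hx, sub_self]
  have h1 : θ (pull E z) = z (fth E θ) := by
    set C : ℝ := ‖θ‖ * ‖E‖ + ‖fth E θ‖ with hC
    have hC1 : 0 ≤ ‖θ‖ * ‖E‖ :=
      mul_nonneg (ContinuousLinearMap.opNorm_nonneg _) (ContinuousLinearMap.opNorm_nonneg _)
    have hC2 : 0 ≤ ‖fth E θ‖ := ContinuousLinearMap.opNorm_nonneg _
    have hC0 : 0 ≤ C := add_nonneg hC1 hC2
    have key : ∀ ε : ℝ, 0 < ε → |θ (pull E z) - z (fth E θ)| ≤ C * ε := by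
      intro ε hε
      obtain ⟨G, hG⟩ := z_approx z hz0 hε
      set w : Wdd := z - ∑ γ ∈ G, z (bb γ) • (Lam γ : Wdd) with hw
      have e1 : θ (pull E w) = θ (pull E z) - ∑ γ ∈ G, z (bb γ) * θ (pull E (Lam γ)) := by
        have e0 : pull E w = pull E z - pull E (∑ γ ∈ G, z (bb γ) • (Lam γ : Wdd)) := by
          ext y
          rfl
        rw [e0, map_sub, map_sum, map_sum]
        congr 1
        apply Finset.sum_congr rfl
        intro γ _
        rw [map_smul, map_smul]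
        rfl
      have e2 : w (fth E θ) = z (fth E θ) - ∑ γ ∈ G, z (bb γ) * Lam γ (fth E θ) := by
        rw [hw, _root_.sub_apply, _root_.sum_apply]
        rfl
      have e3 : θ (pull E z) - z (fth E θ) = θ (pull E w) - w (fth E θ) := by
        rw [e1, e2]
        have : ∑ γ ∈ G, z (bb γ) * θ (pull E (Lam γ)) = ∑ γ ∈ G, z (bb γ) * Lam γ (fth E θ) :=
          Finset.sum_congr rfl fun γ _ => by rw [h]
        rw [this]
        ring
      rw [e3]
      have h3 : |θ (pull E w)| ≤ (‖θ‖ * ‖E‖) * ‖w‖ := pull_le E θ w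
      have h4 : |w (fth E θ)| ≤ ‖w‖ * ‖fth E θ‖ := by
        rw [← Real.norm_eq_abs]
        exact ContinuousLinearMap.le_opNorm _ _
      calc |θ (pull E w) - w (fth E θ)| ≤ |θ (pull E w)| + |w (fth E θ)| := abs_sub _ _
        _ ≤ (‖θ‖ * ‖E‖) * ‖w‖ + ‖w‖ * ‖fth E θ‖ := add_le_add h3 h4
        _ = C * ‖w‖ := by rw [hC]; ring
        _ ≤ C * ε := mul_le_mul_of_nonneg_left hG hC0
    have h5 : |θ (pull E z) - z (fth E θ)| ≤ 0 := by
      apply le_of_forall_pos_le_add
      intro δ hδ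
      have h6 := key (δ / (C + 1)) (by positivity)
      have h7 : C * (δ / (C + 1)) ≤ δ := by
        rw [mul_div_assoc', div_le_iff₀ (by positivity)]
        nlinarith
      linarith
    have h6 := abs_nonpos_iff.1 h5
    linarith
  have h2 : φ = z + NormedSpace.inclusionInDoubleDual ℝ (V ℝ) x := by rw [hz]; abel
  rw [h2, map_add, map_add, h1, _root_.add_apply, ← fth_apply]
  rfl

/-- Claim A: some branch has a gap. -/
theorem exists_gap [CompleteSpace Y] (E : Y →L[ℝ] Wd) {c : ℝ} (hc : 0 < c)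
    (hE : ∀ y, c * ‖y‖ ≤ ‖E y‖) (θ : StrongDual ℝ (StrongDual ℝ Y))
    (hθ : θ ∉ Set.range (NormedSpace.inclusionInDoubleDual ℝ Y)) :
    ∃ γ, θ (pull E (Lam γ)) ≠ Lam γ (fth E θ) := by
  by_contra hcon
  push Not at hcon
  have hng := no_gap E θ hcon
  have hinj : Function.Injective E := by
    rw [injective_iff_map_eq_zero]
    intro y hy
    have h1 := hE y
    rw [hy, norm_zero] at h1
    have h2 : ‖y‖ ≤ 0 := by nlinarith [norm_nonneg y]
    exact norm_le_zero_iff.1 h2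
  have hanti : AntilipschitzWith (Real.toNNReal c⁻¹) E := by
    apply ContinuousLinearMap.antilipschitz_of_bound
    intro y
    rw [Real.coe_toNNReal _ (by positivity)]
    have := hE y
    rw [inv_mul_eq_div, le_div_iff₀ hc]
    linarith
  have hclo : IsClosed (Set.range E) := hanti.isClosed_range E.uniformContinuous
  -- the point lies in the range
  have hmem : fth E θ ∈ Set.range E := by
    by_contra hn
    obtain ⟨φ, u, hu1, hu2⟩ := geometric_hahn_banach_closed_point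
      (E := Wd) (s := Set.range E) (by
        have : (Set.range E) = ((LinearMap.range E.toLinearMap : Submodule ℝ Wd) : Set Wd) := rfl
        rw [this]
        exact (LinearMap.range E.toLinearMap).convex) hclo hn
    have h0 : ∀ y, φ (E y) = 0 := by
      intro y
      by_contra hne
      have hu0 : 0 < u := by simpa using hu1 (E 0) ⟨0, rfl⟩
      have h1 := hu1 (E (((u + 1) / φ (E y)) • y)) ⟨_, rfl⟩
      rw [map_smul, map_smul, smul_eq_mul, div_mul_cancel₀ _ hne] at h1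
      linarith
    have h1 : pull E φ = 0 := by
      ext y
      exact h0 y
    have h2 := hng φ
    rw [h1, map_zero] at h2
    have hu0 : 0 < u := by simpa using hu1 (E 0) ⟨0, rfl⟩
    rw [← h2] at hu2
    linarith
  obtain ⟨y0, hy0⟩ := hmem
  apply hθ
  refine ⟨y0, ?_⟩
  ext ψ
  -- extend `ψ`
  set e := ContinuousLinearMap.equivRange hinj hclo with he
  obtain ⟨φ, hφ, _⟩ := exists_extension_norm_eq (LinearMap.range E.toLinearMap)
    (ψ.comp (e.symm : _ →L[ℝ] Y))
  have h1 : pull E φ = ψ := by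
    ext y
    show φ (E y) = ψ y
    have h2 := hφ ⟨E y, ⟨y, rfl⟩⟩
    have h3 : φ (E y) = ψ (e.symm ⟨E y, ⟨y, rfl⟩⟩) := h2
    rw [h3]
    congr 1
    rw [ContinuousLinearEquiv.symm_apply_eq]
    rfl
  show ψ y0 = θ ψ
  have h2 := hng φ
  rw [h1, ← hy0] at h2
  rw [h2, ← h1]
  rfl

end claimA

end Pool.Agent.Q199.JT
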