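import Pool.Agent.Q199.JT.JOps
import Pool.Agent.Q199.JT.Est

/-!
# The dual of the James space inside nonreflexive subspaces
-/

set_option autoImplicit false
open Filter Topology Finset

namespace Pool.Agent.Q199.JT

open Pool.Agent.H585R4.JT Pool.Agent.H511R3.JT

/-! ### functionals on the James space -/

theorem ex_bl : ∃ G : StrongDual ℝ (StrongDual ℝ J0), (∀ h, ‖G h‖ ≤ ‖h‖) ∧
    ∀ h : StrongDual ℝ J0, Tendsto (fun k => h (en k)) (hyperfilter ℕ : Filter ℕ) (𝓝 (G h)) :=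
  exists_ulim (fun k => NormedSpace.inclusionInDoubleDual ℝ J0 (en k))
    (fun k h => by
      show ‖h (en k)‖ ≤ ‖h‖
      calc ‖h (en k)‖ ≤ ‖h‖ * ‖en k‖ := h.le_opNorm _
        _ ≤ ‖h‖ * 1 := mul_le_mul_of_nonneg_left (en_le _) (ContinuousLinearMap.opNorm_nonneg _)
        _ = ‖h‖ := mul_one _)

/-- the limit of a functional along the unit vectors -/
noncomputable def bl : StrongDual ℝ (StrongDual ℝ J0) := ex_bl.choose

theorem bl_le (h : StrongDual ℝ J0) : |bl h| ≤ ‖h‖ := ex_bl.choose_spec.1 h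

theorem bl_lim (h : StrongDual ℝ J0) :
    Tendsto (fun k => h (en k)) (hyperfilter ℕ : Filter ℕ) (𝓝 (bl h)) := ex_bl.choose_spec.2 h

/-- the embedding along the branch `true, true, …` -/
noncomputable def Di : J0 →ₗᵢ[ℝ] V ℝ where
  toLinearMap := Dm (fun _ => true) (fun k => k + 1)
  norm_map' x := norm_Dm (fun a b h => Nat.succ_lt_succ h) le_rfl x

theorem exists_ext (h : StrongDual ℝ J0) : ∃ v : Wd, ∀ x, v (Di x) = h x := by
  obtain ⟨v, hv, _⟩ := exists_extension_norm_eq (LinearMap.range Di.toLinearMap)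
    (h.comp (Di.equivRange.symm.toContinuousLinearEquiv : _ →L[ℝ] J0))
  refine ⟨v, fun x => ?_⟩
  have h1 := hv ⟨Di x, ⟨x, rfl⟩⟩
  have h2 : v (Di x) = h (Di.equivRange.symm ⟨Di x, ⟨x, rfl⟩⟩) := h1
  rw [h2]
  congr 1
  rw [LinearIsometryEquiv.symm_apply_eq]
  rfl

theorem J1' (h : StrongDual ℝ J0) : ∃ b : ℝ, ∀ ε : ℝ, 0 < ε → ∃ N, ∀ w : J0,
    (∀ k, k < N → cf w k = 0) → |h w - b * Bl w| ≤ ε * ‖w‖ := by
  classical
  obtain ⟨v, hv⟩ := exists_ext h
  set γ : ℕ → Bool := fun _ => true with hγ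
  refine ⟨Lam γ v, fun ε hε => ?_⟩
  obtain ⟨G0, hG0⟩ := F2 v hε
  obtain ⟨N1, hN1⟩ := hG0 (insert γ G0) (Finset.subset_insert _ _)
  obtain ⟨n0, hn0⟩ := exists_sep (insert γ G0)
  refine ⟨max N1 n0, fun w hw => ?_⟩
  set N := max N1 n0 with hN
  have h1 := hN1 N (le_max_left _ _) (Di w)
  obtain ⟨K, hK⟩ := exists_K w
  have hmap : ∀ φ : Wd, φ (Di w) = ∑ k ∈ Finset.range K, cf w k * φ (ee (bn γ (k + 1))) :=
    fun φ => map_Dm γ (fun k => k + 1) φ w hK
  have hz : ∀ φ : Wd, (∀ k, N ≤ k → φ (ee (bn γ (k + 1))) = 0) → φ (Di w) = 0 := by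
    intro φ hφ
    rw [hmap]
    apply Finset.sum_eq_zero
    intro k _
    rcases Nat.lt_or_ge k N with hk | hk
    · rw [hw k hk, zero_mul]
    · rw [hφ k hk, mul_zero]
  have hQ : v (QQ N (Di w)) = h w := by
    rw [← hv w]
    have h2 := hz (v - v.comp (QQ N)) (by
      intro k hk
      show v (ee (bn γ (k + 1))) - v (QQ N (ee (bn γ (k + 1)))) = 0
      rw [QQ_ee (by rw [length_bn]; omega), sub_self])
    have h3 : v (Di w) - v (QQ N (Di w)) = 0 := h2
    linarith
  have hev : ∀ γ' : ℕ → Bool, ev (bn γ' N) (Di w) = 0 := by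
    intro γ'
    apply hz
    intro k hk
    rw [ev_ee, if_neg]
    rintro ⟨h2, _⟩
    have := h2.length_le
    rw [length_bn, length_bn] at this
    omega
  have hbbne : ∀ γ' ∈ insert γ G0, γ' ≠ γ → bb γ' (Di w) = 0 := by
    intro γ' hγ' hne
    apply hz
    intro k hk
    rw [bb_ee γ γ' (by omega), if_neg]
    have h2 := hn0 γ (Finset.mem_insert_self _ _) γ' hγ' hne.symm (k + 1) (by
      have : n0 ≤ N := le_max_right _ _
      omega)
    exact h2
  have hbb : bb γ (Di w) = Bl w := by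
    rw [hmap, Bl_eq w hK]
    apply Finset.sum_congr rfl
    intro k _
    rw [bb_ee γ γ (by omega), if_pos rfl, mul_one]
  have hsum : ∑ γ' ∈ insert γ G0, Lam γ' v * (bb γ' (Di w) - ev (bn γ' N) (Di w)) =
      Lam γ v * Bl w := by
    rw [Finset.sum_eq_single γ]
    · rw [hbb, hev, sub_zero]
    · intro γ' hγ' hne
      rw [hbbne γ' hγ' hne, hev, sub_zero, mul_zero]
    · intro hn
      exact absurd (Finset.mem_insert_self _ _) hn
  rw [hQ, hsum, Di.norm_map] at h1
  exact h1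

theorem J1 (h : StrongDual ℝ J0) {ε : ℝ} (hε : 0 < ε) : ∃ N, ∀ w : J0,
    (∀ k, k < N → cf w k = 0) → |h w - bl h * Bl w| ≤ ε * ‖w‖ := by
  obtain ⟨b, hb⟩ := J1' h
  have h1 : bl h = b := by
    refine tendsto_nhds_unique (bl_lim h) ?_
    rw [Metric.tendsto_nhds]
    intro δ hδ
    obtain ⟨N, hN⟩ := hb (δ / 2) (half_pos hδ)
    filter_upwards [hyp_ge N] with k hk
    have h2 := hN (en k) (by
      intro j hj
      rw [cf_en, Finsupp.single_apply, if_neg (by omega)])
    rw [Bl_en, mul_one] at h2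
    rw [Real.dist_eq]
    have h3 : δ / 2 * ‖en k‖ ≤ δ / 2 * 1 := mul_le_mul_of_nonneg_left (en_le k) (half_pos hδ).le
    linarith
  rw [h1]
  exact hb ε hε

/-- functionals which are small far out -/
def Small (u : StrongDual ℝ J0) : Prop :=
  ∀ ε : ℝ, 0 < ε → ∃ N, ∀ w : J0, (∀ k, k < N → cf w k = 0) → |u w| ≤ ε * ‖w‖

/-- the left shift as an operator -/
noncomputable def Lc : J0 →L[ℝ] J0 := Ll.mkContinuous 1 (fun x => by rw [one_mul]; exact Ll_le x)

theorem Lc_apply (x : J0) : Lc x = Ll x := rfl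

/-- the isomorphic embedding of the dual into the functionals which are small far out -/
noncomputable def UL : StrongDual ℝ J0 →ₗ[ℝ] StrongDual ℝ J0 where
  toFun h := bl h • ev0 + (h - bl h • BB).comp Lc
  map_add' h h' := by
    ext x
    show bl (h + h') * ev0 x + ((h (Lc x) + h' (Lc x)) - bl (h + h') * BB (Lc x)) =
      (bl h * ev0 x + (h (Lc x) - bl h * BB (Lc x))) + (bl h' * ev0 x + (h' (Lc x) - bl h' * BB (Lc x)))
    rw [map_add]
    ring
  map_smul' r h := by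
    ext x
    show bl (r • h) * ev0 x + (r * h (Lc x) - bl (r • h) * BB (Lc x)) =
      r * (bl h * ev0 x + (h (Lc x) - bl h * BB (Lc x)))
    rw [map_smul, smul_eq_mul]
    ring

theorem UL_apply (h : StrongDual ℝ J0) (x : J0) :
    UL h x = bl h * cf x 0 + (h (Ll x) - bl h * Bl (Ll x)) := rfl

theorem UL_small (h : StrongDual ℝ J0) : Small (UL h) := by
  intro ε hε
  obtain ⟨N, hN⟩ := J1 h hε
  refine ⟨N + 1, fun w hw => ?_⟩
  rw [UL_apply, hw 0 (Nat.succ_pos N), mul_zero, zero_add]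
  have h1 := hN (Ll w) (by
    intro k hk
    rw [cf_Ll, hw (k + 1) (by omega)])
  exact h1.trans (mul_le_mul_of_nonneg_left (Ll_le w) hε.le)

theorem UL_le (h : StrongDual ℝ J0) : ‖UL h‖ ≤ 3 * ‖h‖ := by
  have h0 : 0 ≤ ‖h‖ := ContinuousLinearMap.opNorm_nonneg _
  apply ContinuousLinearMap.opNorm_le_bound _ (by positivity)
  intro x
  rw [UL_apply, Real.norm_eq_abs]
  have h1 : |bl h * cf x 0| ≤ ‖h‖ * ‖x‖ := by
    rw [abs_mul]
    exact mul_le_mul (bl_le h) (natSys.coord_le x 0) (abs_nonneg _) h0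
  have h2 : |h (Ll x)| ≤ ‖h‖ * ‖x‖ := by
    rw [← Real.norm_eq_abs]
    exact (h.le_opNorm _).trans (mul_le_mul_of_nonneg_left (Ll_le x) h0)
  have h3 : |bl h * Bl (Ll x)| ≤ ‖h‖ * ‖x‖ := by
    rw [abs_mul]
    exact mul_le_mul (bl_le h) ((Bl_le _).trans (Ll_le x)) (abs_nonneg _) h0
  rw [abs_le] at h1 h2 h3 ⊢
  constructor <;> linarith [h1.1, h1.2, h2.1, h2.2, h3.1, h3.2]

theorem le_UL (h : StrongDual ℝ J0) : ‖h‖ ≤ 2 * ‖UL h‖ := by
  have h0 : 0 ≤ ‖UL h‖ := ContinuousLinearMap.opNorm_nonneg _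
  apply ContinuousLinearMap.opNorm_le_bound _ (by positivity)
  intro x
  have h1 : UL h (en 0) = bl h := by
    have e1 : Ll (en 0) = 0 := by
      apply cf.injective
      ext k
      rw [cf_Ll, cf_en, map_zero, Finsupp.single_apply, if_neg (by omega)]
      rfl
    rw [UL_apply, cf_en, Finsupp.single_eq_same, e1, map_zero, map_zero, mul_one, mul_zero,
      sub_zero, add_zero]
  have h2 : UL h (Rl x) = h x - bl h * Bl x := by
    rw [UL_apply, cf_Rl_zero, Ll_Rl, mul_zero, zero_add]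
  have h3 : h x = UL h (en 0) * Bl x + UL h (Rl x) := by
    rw [h1, h2]
    ring
  have h4 : |UL h (en 0) * Bl x| ≤ ‖UL h‖ * ‖x‖ := by
    rw [abs_mul]
    apply mul_le_mul _ (Bl_le x) (abs_nonneg _) h0
    rw [← Real.norm_eq_abs]
    calc ‖UL h (en 0)‖ ≤ ‖UL h‖ * ‖en 0‖ := (UL h).le_opNorm _
      _ ≤ ‖UL h‖ * 1 := mul_le_mul_of_nonneg_left (en_le 0) h0
      _ = ‖UL h‖ := mul_one _
  have h5 : |UL h (Rl x)| ≤ ‖UL h‖ * ‖x‖ := by
    rw [← Real.norm_eq_abs]
    exact ((UL h).le_opNorm _).trans (mul_le_mul_of_nonneg_left (Rl_le x) h0)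
  rw [h3, Real.norm_eq_abs]
  exact (abs_add_le _ _).trans (by linarith)

/-! ### the operator -/

section TT

variable {Y : Type} [NormedAddCommGroup Y] [NormedSpace ℝ Y] (E : Y →L[ℝ] Wd) (y : ℕ → Y)

/-- partial sums of the dual operator -/
noncomputable def SN (N : ℕ) : StrongDual ℝ J0 →ₗ[ℝ] Y :=
  ∑ i ∈ Finset.range N,
    (NormedSpace.inclusionInDoubleDual ℝ J0 (en i)).toLinearMap.smulRight (y i - y (i + 1))

theorem SN_apply (N : ℕ) (u : StrongDual ℝ J0) :
    SN y N u = ∑ i ∈ Finset.range N, u (en i) • (y i - y (i + 1)) := by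
  unfold SN
  rw [LinearMap.sum_apply]
  rfl

/-- the operators into the James space -/
noncomputable def AN (N : ℕ) (x : V ℝ) : J0 :=
  ∑ i ∈ Finset.range N, (E (y i) x - E (y (i + 1)) x) • en i

theorem cf_AN (N : ℕ) (x : V ℝ) (j : ℕ) :
    cf (AN E y N x) j = if j < N then E (y j) x - E (y (j + 1)) x else 0 := by
  unfold AN
  rw [map_sum, Finsupp.finsetSum_apply]
  have h1 : ∀ i ∈ Finset.range N, (cf ((E (y i) x - E (y (i + 1)) x) • en i)) j =
      if i = j then E (y j) x - E (y (j + 1)) x else 0 := by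
    intro i _
    rw [map_smul, cf_en, Finsupp.smul_single, smul_eq_mul, mul_one, Finsupp.single_apply]
    split_ifs with h
    · rw [h]
    · rfl
  rw [Finset.sum_congr rfl h1, Finset.sum_ite_eq']
  simp only [Finset.mem_range]

theorem E_SN (N : ℕ) (u : StrongDual ℝ J0) (x : V ℝ) : E (SN y N u) x = u (AN E y N x) := by
  rw [SN_apply, map_sum, _root_.sum_apply]
  unfold AN
  rw [map_sum]
  apply Finset.sum_congr rfl
  intro i _
  rw [map_smul, map_smul, map_sub]
  show u (en i) * (E (y i) x - E (y (i + 1)) x) = (E (y i) x - E (y (i + 1)) x) * u (en i)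
  ring

variable {E y}

theorem norm_AN {C : ℝ} (hC0 : 0 ≤ C)
    (hC : ∀ (S : Finset (ℕ × ℕ)), (∀ i ∈ S, i.1 < i.2) →
        (∀ i ∈ S, ∀ j ∈ S, i ≠ j → i.2 ≤ j.1 ∨ j.2 ≤ i.1) → ∀ x : V ℝ,
        ∑ i ∈ S, ((E (y i.1)) x - (E (y i.2)) x) ^ 2 ≤ C * ‖x‖ ^ 2) (N : ℕ) (x : V ℝ) :
    ‖AN E y N x‖ ≤ Real.sqrt C * ‖x‖ := by
  classical
  apply natSys.norm_le (by positivity)
  intro P hP
  rw [mul_pow, Real.sq_sqrt hC0]
  have hmn : ∀ s : Finset ℕ, ∃ q : ℕ × ℕ, s ∈ P → s = Finset.Icc q.1 q.2 := by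
    intro s
    by_cases hs : s ∈ P
    · obtain ⟨m, n, h⟩ := hP.1 s hs
      exact ⟨(m, n), fun _ => h⟩
    · exact ⟨(0, 0), fun h => absurd h hs⟩
  choose q hq using hmn
  have hmem : ∀ s ∈ P, ∀ k, k ∈ s ↔ (q s).1 ≤ k ∧ k ≤ (q s).2 := by
    intro s hs k
    conv_lhs => rw [hq s hs]
    exact Finset.mem_Icc
  set T := P.filter (fun s => (q s).1 ≤ (q s).2 ∧ (q s).1 < N) with hT
  have hzero : ∀ s ∈ P, s ∉ T → (∑ a ∈ s, natSys.toF (AN E y N x) a) ^ 2 = 0 := by
    intro s hs hns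
    have h1 : ∑ a ∈ s, natSys.toF (AN E y N x) a = 0 := by
      apply Finset.sum_eq_zero
      intro a ha
      have h2 := (hmem s hs a).1 ha
      have h3 := cf_AN E y N x a
      rw [if_neg] at h3
      · exact h3
      · intro h4
        exact hns (Finset.mem_filter.2 ⟨hs, by omega, by omega⟩)
    rw [h1]
    norm_num
  have h1 : ∑ s ∈ P, (∑ a ∈ s, natSys.toF (AN E y N x) a) ^ 2 =
      ∑ s ∈ T, (∑ a ∈ s, natSys.toF (AN E y N x) a) ^ 2 :=
    (Finset.sum_subset (Finset.filter_subset _ _) hzero).symm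
  rw [h1]
  set w : Finset ℕ → ℕ × ℕ := fun s => ((q s).1, min ((q s).2 + 1) N) with hw
  have h2 : ∀ s ∈ T, (∑ a ∈ s, natSys.toF (AN E y N x) a) ^ 2 =
      ((E (y (w s).1)) x - (E (y (w s).2)) x) ^ 2 := by
    intro s hs
    obtain ⟨hsP, hs1, hs2⟩ := Finset.mem_filter.1 hs
    congr 1
    have e1 : ∀ a ∈ s, natSys.toF (AN E y N x) a =
        if a < N then E (y a) x - E (y (a + 1)) x else 0 := fun a _ => cf_AN E y N x a
    rw [Finset.sum_congr rfl e1, ← Finset.sum_filter]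
    have e2 : s.filter (fun a => a < N) = Finset.Ico (q s).1 (min ((q s).2 + 1) N) := by
      ext a
      rw [Finset.mem_filter, hmem s hsP, Finset.mem_Ico]
      omega
    rw [e2]
    have e3 := Finset.sum_Ico_sub (fun a => -(E (y a) x)) (show (q s).1 ≤ min ((q s).2 + 1) N by omega)
    have e4 : ∑ a ∈ Finset.Ico (q s).1 (min ((q s).2 + 1) N), (E (y a) x - E (y (a + 1)) x) =
        ∑ a ∈ Finset.Ico (q s).1 (min ((q s).2 + 1) N), (-(E (y (a + 1)) x) - -(E (y a) x)) :=
      Finset.sum_congr rfl fun a _ => by ring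
    rw [e4, e3]
    simp only [hw]
    ring
  rw [Finset.sum_congr rfl h2]
  have hinj : Set.InjOn w (T : Set (Finset ℕ)) := by
    intro s hs t ht hst
    by_contra hne
    obtain ⟨hsP, hs1, hs2⟩ := Finset.mem_filter.1 hs
    obtain ⟨htP, ht1, ht2⟩ := Finset.mem_filter.1 ht
    have h3 := hP.2 s hsP t htP hne
    rw [Finset.disjoint_left] at h3
    have h4' : (w s).1 = (w t).1 := congrArg Prod.fst hst
    have h4 : (q s).1 = (q t).1 := h4'
    exact h3 (a := (q s).1) ((hmem s hsP _).2 ⟨le_rfl, hs1⟩) ((hmem t htP _).2 ⟨h4.ge, by omega⟩)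
  have h3 : ∑ s ∈ T, ((E (y (w s).1)) x - (E (y (w s).2)) x) ^ 2 =
      ∑ i ∈ T.image w, ((E (y i.1)) x - (E (y i.2)) x) ^ 2 := by
    rw [Finset.sum_image hinj]
  rw [h3]
  apply hC
  · intro i hi
    obtain ⟨s, hs, rfl⟩ := Finset.mem_image.1 hi
    obtain ⟨hsP, hs1, hs2⟩ := Finset.mem_filter.1 hs
    simp only [hw]
    omega
  · intro i hi j hj hne
    obtain ⟨s, hs, rfl⟩ := Finset.mem_image.1 hi
    obtain ⟨t, ht, rfl⟩ := Finset.mem_image.1 hj
    obtain ⟨hsP, hs1, hs2⟩ := Finset.mem_filter.1 hs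
    obtain ⟨htP, ht1, ht2⟩ := Finset.mem_filter.1 ht
    have hst : s ≠ t := fun h => hne (by rw [h])
    have h4 := hP.2 s hsP t htP hst
    rw [Finset.disjoint_left] at h4
    simp only [hw]
    by_contra hc
    push Not at hc
    exact h4 (a := max (q s).1 (q t).1) ((hmem s hsP _).2 (by omega)) ((hmem t htP _).2 (by omega))

end TT

/-- The abstract form of the main result. -/
theorem main_abstract {Y : Type} [NormedAddCommGroup Y] [NormedSpace ℝ Y] [CompleteSpace Y]
    (E : Y →L[ℝ] Wd) {c : ℝ} (hc : 0 < c) (hE : ∀ y, c * ‖y‖ ≤ ‖E y‖)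
    (hY : ¬ Function.Surjective (NormedSpace.inclusionInDoubleDual ℝ Y)) :
    ∃ (T : StrongDual ℝ J0 →L[ℝ] Y) (κ : ℝ), 0 < κ ∧ ∀ h, κ * ‖h‖ ≤ ‖T h‖ := by
  classical
  obtain ⟨γ₀, c₀, y, l, C, hc₀, hC0, hl, hl0, hC, hM⟩ := exists_good_seq E hc hE hY
  have habs : 0 < |c₀| := abs_pos.2 hc₀
  have hA := fun N x => norm_AN (E := E) (y := y) hC0 hC N x
  have hs0 : 0 ≤ Real.sqrt C := Real.sqrt_nonneg _
  -- the partial sums are bounded
  have hSN : ∀ N (u : StrongDual ℝ J0), ‖SN y N u‖ ≤ c⁻¹ * (Real.sqrt C * ‖u‖) := by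
    intro N u
    have hu0 : 0 ≤ ‖u‖ := ContinuousLinearMap.opNorm_nonneg _
    have h1 : ‖E (SN y N u)‖ ≤ Real.sqrt C * ‖u‖ := by
      apply ContinuousLinearMap.opNorm_le_bound _ (by positivity)
      intro x
      rw [E_SN]
      calc ‖u (AN E y N x)‖ ≤ ‖u‖ * ‖AN E y N x‖ := u.le_opNorm _
        _ ≤ ‖u‖ * (Real.sqrt C * ‖x‖) := mul_le_mul_of_nonneg_left (hA N x) hu0
        _ = Real.sqrt C * ‖u‖ * ‖x‖ := by ring
    have h2 := hE (SN y N u)
    rw [inv_mul_eq_div, le_div_iff₀ hc]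
    linarith
  -- convergence
  have hcau : ∀ u : StrongDual ℝ J0, Small u → ∃ t : Y, Tendsto (fun N => SN y N u) atTop (𝓝 t) := by
    intro u hu
    apply cauchySeq_tendsto_of_complete
    rw [Metric.cauchySeq_iff']
    intro δ hδ
    set η : ℝ := c * δ / (4 * (Real.sqrt C + 1)) with hη
    have hη0 : 0 < η := by positivity
    obtain ⟨N0, hN0⟩ := hu η hη0
    refine ⟨N0, fun N hN => ?_⟩
    rw [dist_eq_norm]
    have h1 : ‖E (SN y N u - SN y N0 u)‖ ≤ 2 * η * Real.sqrt C := by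
      apply ContinuousLinearMap.opNorm_le_bound _ (by positivity)
      intro x
      have e1 : E (SN y N u - SN y N0 u) x = u (AN E y N x - AN E y N0 x) := by
        rw [map_sub, _root_.sub_apply, E_SN, E_SN, map_sub]
      rw [e1, Real.norm_eq_abs]
      have h2 := hN0 (AN E y N x - AN E y N0 x) (by
        intro k hk
        rw [map_sub, Finsupp.sub_apply, cf_AN, cf_AN, if_pos hk, if_pos (by omega), sub_self])
      refine h2.trans ?_
      have h3 : ‖AN E y N x - AN E y N0 x‖ ≤ Real.sqrt C * ‖x‖ + Real.sqrt C * ‖x‖ :=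
        (norm_sub_le _ _).trans (add_le_add (hA N x) (hA N0 x))
      calc η * ‖AN E y N x - AN E y N0 x‖ ≤ η * (Real.sqrt C * ‖x‖ + Real.sqrt C * ‖x‖) :=
            mul_le_mul_of_nonneg_left h3 hη0.le
        _ = 2 * η * Real.sqrt C * ‖x‖ := by ring
    have h2 := hE (SN y N u - SN y N0 u)
    have h3 : 2 * η * Real.sqrt C < c * δ := by
      have h4 : 2 * η * Real.sqrt C = (c * δ) * (Real.sqrt C / (2 * (Real.sqrt C + 1))) := by
        rw [hη]
        field_simp
        ring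
      rw [h4]
      have h5 : Real.sqrt C / (2 * (Real.sqrt C + 1)) < 1 := by
        rw [div_lt_one (by positivity)]
        linarith
      have h6 : 0 < c * δ := by positivity
      nlinarith
    by_contra hcon
    push Not at hcon
    have h4 : c * δ ≤ c * ‖SN y N u - SN y N0 u‖ := mul_le_mul_of_nonneg_left hcon hc.le
    linarith
  choose t ht using fun h : StrongDual ℝ J0 => hcau (UL h) (UL_small h)
  have htend : Tendsto (fun N (h : StrongDual ℝ J0) => ((SN y N) ∘ₗ UL) h) atTop (𝓝 t) := by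
    rw [tendsto_pi_nhds]
    intro h
    exact ht h
  let TL : StrongDual ℝ J0 →ₗ[ℝ] Y := linearMapOfTendsto t (fun N => (SN y N) ∘ₗ UL) htend
  have hTL : ∀ h, TL h = t h := fun h => rfl
  have hbound : ∀ h, ‖TL h‖ ≤ (3 * (c⁻¹ * Real.sqrt C)) * ‖h‖ := by
    intro h
    rw [hTL]
    refine le_of_tendsto (ht h).norm (Eventually.of_forall fun N => ?_)
    calc ‖SN y N (UL h)‖ ≤ c⁻¹ * (Real.sqrt C * ‖UL h‖) := hSN N _
      _ ≤ c⁻¹ * (Real.sqrt C * (3 * ‖h‖)) := by
          apply mul_le_mul_of_nonneg_left _ (by positivity)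
          exact mul_le_mul_of_nonneg_left (UL_le h) hs0
      _ = (3 * (c⁻¹ * Real.sqrt C)) * ‖h‖ := by ring
  refine ⟨TL.mkContinuous _ hbound, |c₀| / (4 * (‖E‖ + 1)), ?_, ?_⟩
  · have : 0 ≤ ‖E‖ := ContinuousLinearMap.opNorm_nonneg _
    positivity
  · intro h
    show |c₀| / (4 * (‖E‖ + 1)) * ‖h‖ ≤ ‖TL h‖
    rw [hTL]
    set u := UL h with hu
    have hE0 : 0 ≤ ‖E‖ := ContinuousLinearMap.opNorm_nonneg _
    have hu0 : 0 ≤ ‖u‖ := ContinuousLinearMap.opNorm_nonneg _
    -- the pairing estimate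
    have hpair : ∀ x : J0, |c₀| * |u x| ≤ (‖E (t h)‖ + ‖u‖ * |c₀| / 2) * ‖x‖ := by
      intro x
      obtain ⟨K, hK⟩ := exists_K x
      have hEt : Tendsto (fun N => ‖E (SN y N u)‖) atTop (𝓝 ‖E (t h)‖) :=
        ((E.continuous.tendsto _).comp (ht h)).norm
      have hlim : Tendsto (fun N => (‖E (SN y N u)‖ + ‖u‖ * |c₀| / 2) * ‖x‖) atTop
          (𝓝 ((‖E (t h)‖ + ‖u‖ * |c₀| / 2) * ‖x‖)) := (hEt.add_const _).mul_const _
      refine ge_of_tendsto hlim ?_
      filter_upwards [eventually_ge_atTop K] with N hN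
      set X : V ℝ := Dm γ₀ l x with hX
      have hXn : ‖X‖ = ‖x‖ := norm_Dm hl hl0 x
      -- the value
      have e1 : E (SN y N u) X = ∑ i ∈ Finset.range N, ∑ k ∈ Finset.range K,
          u (en i) * cf x k * (E (y i) (ee (bn γ₀ (l k))) - E (y (i + 1)) (ee (bn γ₀ (l k)))) := by
        rw [SN_apply, map_sum, _root_.sum_apply]
        apply Finset.sum_congr rfl
        intro i _
        rw [map_smul]
        show u (en i) * (E (y i - y (i + 1)) X) = _
        rw [hX, map_Dm γ₀ l _ x hK, Finset.mul_sum]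
        apply Finset.sum_congr rfl
        intro k _
        rw [map_sub, _root_.sub_apply]
        ring
      have e2 : c₀ * u x = ∑ i ∈ Finset.range N, ∑ k ∈ Finset.range K,
          u (en i) * cf x k * (if i = k then c₀ else 0) := by
        have e3 : u x = ∑ k ∈ Finset.range K, cf x k * u (en k) :=
          map_expand u.toLinearMap x hK
        rw [Finset.sum_comm, e3, Finset.mul_sum]
        apply Finset.sum_congr rfl
        intro k hk
        have e4 : ∀ i ∈ Finset.range N, u (en i) * cf x k * (if i = k then c₀ else 0) =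
            if i = k then u (en k) * cf x k * c₀ else 0 := by
          intro i _
          split_ifs with h1
          · rw [h1]
          · rw [mul_zero]
        rw [Finset.sum_congr rfl e4, Finset.sum_ite_eq', if_pos]
        · ring
        · rw [Finset.mem_range] at hk ⊢
          omega
      have e5 : |c₀ * u x - E (SN y N u) X| ≤ ‖u‖ * |c₀| / 2 * ‖x‖ := by
        rw [e1, e2, ← Finset.sum_sub_distrib]
        have e6 : ∀ i ∈ Finset.range N, (∑ k ∈ Finset.range K,
            u (en i) * cf x k * (if i = k then c₀ else 0) - ∑ k ∈ Finset.range K,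
            u (en i) * cf x k * (E (y i) (ee (bn γ₀ (l k))) - E (y (i + 1)) (ee (bn γ₀ (l k))))) =
            ∑ k ∈ Finset.range K, (u (en i) * cf x k) * ((if i = k then c₀ else 0) -
              (E (y i) (ee (bn γ₀ (l k))) - E (y (i + 1)) (ee (bn γ₀ (l k))))) := by
          intro i _
          rw [← Finset.sum_sub_distrib]
          apply Finset.sum_congr rfl
          intro k _
          ring
        rw [Finset.sum_congr rfl e6]
        have e7 : ∀ i ∈ Finset.range N, |∑ k ∈ Finset.range K, (u (en i) * cf x k) *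
            ((if i = k then c₀ else 0) -
              (E (y i) (ee (bn γ₀ (l k))) - E (y (i + 1)) (ee (bn γ₀ (l k)))))| ≤
            ‖u‖ * ‖x‖ * |c₀| / 8 * ((1 / 2) ^ i * 2) := by
          intro i _
          calc |∑ k ∈ Finset.range K, (u (en i) * cf x k) * ((if i = k then c₀ else 0) -
              (E (y i) (ee (bn γ₀ (l k))) - E (y (i + 1)) (ee (bn γ₀ (l k)))))|
              ≤ ∑ k ∈ Finset.range K, |(u (en i) * cf x k) * ((if i = k then c₀ else 0) -
              (E (y i) (ee (bn γ₀ (l k))) - E (y (i + 1)) (ee (bn γ₀ (l k)))))| :=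
                Finset.abs_sum_le_sum_abs _ _
            _ ≤ ∑ k ∈ Finset.range K, (‖u‖ * ‖x‖) * (|c₀| / 8 * ((1 / 2) ^ i * (1 / 2) ^ k)) := by
                apply Finset.sum_le_sum
                intro k _
                rw [abs_mul, abs_mul]
                have h1 : |u (en i)| ≤ ‖u‖ := by
                  rw [← Real.norm_eq_abs]
                  calc ‖u (en i)‖ ≤ ‖u‖ * ‖en i‖ := u.le_opNorm _
                    _ ≤ ‖u‖ * 1 := mul_le_mul_of_nonneg_left (en_le i) hu0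
                    _ = ‖u‖ := mul_one _
                have h2 : |cf x k| ≤ ‖x‖ := natSys.coord_le x k
                have h3 := hM i k
                rw [abs_sub_comm] at h3
                exact mul_le_mul (mul_le_mul h1 h2 (abs_nonneg _) hu0) h3 (abs_nonneg _)
                  (mul_nonneg hu0 (norm_nonneg _))
            _ = ‖u‖ * ‖x‖ * |c₀| / 8 * ((1 / 2) ^ i * ∑ k ∈ Finset.range K, (1 / 2 : ℝ) ^ k) := by
                rw [Finset.mul_sum, Finset.mul_sum]
                apply Finset.sum_congr rfl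
                intro k _
                ring
            _ ≤ ‖u‖ * ‖x‖ * |c₀| / 8 * ((1 / 2) ^ i * 2) := by
                apply mul_le_mul_of_nonneg_left _ (by positivity)
                exact mul_le_mul_of_nonneg_left (sum_geometric_two_le K) (by positivity)
        calc |∑ i ∈ Finset.range N, ∑ k ∈ Finset.range K, (u (en i) * cf x k) *
              ((if i = k then c₀ else 0) -
              (E (y i) (ee (bn γ₀ (l k))) - E (y (i + 1)) (ee (bn γ₀ (l k)))))|
            ≤ ∑ i ∈ Finset.range N, |∑ k ∈ Finset.range K, (u (en i) * cf x k) *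
              ((if i = k then c₀ else 0) -
              (E (y i) (ee (bn γ₀ (l k))) - E (y (i + 1)) (ee (bn γ₀ (l k)))))| :=
              Finset.abs_sum_le_sum_abs _ _
          _ ≤ ∑ i ∈ Finset.range N, ‖u‖ * ‖x‖ * |c₀| / 8 * ((1 / 2) ^ i * 2) :=
              Finset.sum_le_sum e7
          _ = ‖u‖ * ‖x‖ * |c₀| / 4 * ∑ i ∈ Finset.range N, (1 / 2 : ℝ) ^ i := by
              rw [Finset.mul_sum]
              apply Finset.sum_congr rfl
              intro i _
              ring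
          _ ≤ ‖u‖ * ‖x‖ * |c₀| / 4 * 2 :=
              mul_le_mul_of_nonneg_left (sum_geometric_two_le N) (by positivity)
          _ = ‖u‖ * |c₀| / 2 * ‖x‖ := by ring
      have e8 : |E (SN y N u) X| ≤ ‖E (SN y N u)‖ * ‖x‖ := by
        rw [← Real.norm_eq_abs, ← hXn]
        exact (E (SN y N u)).le_opNorm _
      calc |c₀| * |u x| = |c₀ * u x| := (abs_mul _ _).symm
        _ = |(c₀ * u x - E (SN y N u) X) + E (SN y N u) X| := by rw [sub_add_cancel]
        _ ≤ |c₀ * u x - E (SN y N u) X| + |E (SN y N u) X| := abs_add_le _ _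
        _ ≤ ‖u‖ * |c₀| / 2 * ‖x‖ + ‖E (SN y N u)‖ * ‖x‖ := add_le_add e5 e8
        _ = (‖E (SN y N u)‖ + ‖u‖ * |c₀| / 2) * ‖x‖ := by ring
    have hun : ‖u‖ ≤ (‖E (t h)‖ + ‖u‖ * |c₀| / 2) / |c₀| := by
      have hEt0 : 0 ≤ ‖E (t h)‖ := ContinuousLinearMap.opNorm_nonneg _
      apply ContinuousLinearMap.opNorm_le_bound _ (by positivity)
      intro x
      rw [div_mul_eq_mul_div, le_div_iff₀ habs, Real.norm_eq_abs, mul_comm]
      exact hpair x
    rw [le_div_iff₀ habs] at hun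
    have h1 : ‖u‖ * |c₀| ≤ 2 * ‖E (t h)‖ := by linarith
    have h2 : ‖E (t h)‖ ≤ ‖E‖ * ‖t h‖ := E.le_opNorm _
    have h3 := le_UL h
    rw [← hu] at h3
    have h4 : |c₀| * ‖h‖ ≤ 4 * (‖E‖ * ‖t h‖) := by
      calc |c₀| * ‖h‖ ≤ |c₀| * (2 * ‖u‖) := mul_le_mul_of_nonneg_left h3 habs.le
        _ = 2 * (‖u‖ * |c₀|) := by ring
        _ ≤ 2 * (2 * ‖E (t h)‖) := by linarith
        _ ≤ 2 * (2 * (‖E‖ * ‖t h‖)) := by linarith
        _ = 4 * (‖E‖ * ‖t h‖) := by ring
    rw [div_mul_eq_mul_div, div_le_iff₀ (by positivity)]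
    have h5 : 0 ≤ ‖t h‖ := norm_nonneg _
    nlinarith

end Pool.Agent.Q199.JT
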