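import Pool.Agent.H511R3.JT.E
import Pool.Agent.H973R3.JT.C1

/-!
# Functionals on the James tree space: tails and branches
-/

set_option autoImplicit false
open Filter Topology Finset
open scoped ENNReal ComplexConjugate

namespace Pool.Agent.Q199.JT

open Pool.Agent.H585R4.JT Pool.Agent.H511R3.JT

/-- the dual of the tree space -/
abbrev Wd := StrongDual ℝ (V ℝ)
/-- the bidual of the tree space -/
abbrev Wdd := StrongDual ℝ (StrongDual ℝ (V ℝ))

/-! ### the tail operators -/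

theorem tr_tr {m n : ℕ} (h : m ≤ n) (t : Nd) : tr m (tr n t) = tr m t := by
  apply eq_of_suffix_length ((tr_suffix m _).trans (tr_suffix n t)) (tr_suffix m t)
  rw [length_tr, length_tr, length_tr]
  omega

theorem QQ_QQ {n m : ℕ} (h : n ≤ m) (x : V ℝ) : QQ n (QQ m x) = QQ m x := by
  apply ext_ev
  intro t
  rw [ev_QQ n, ev_QQ_le x (s := tr n t) (by rw [length_tr]; omega), sub_zero]

theorem QQ_PP {n m : ℕ} (h : m ≤ n) (x : V ℝ) : QQ n (PP m x) = 0 := by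
  apply ext_ev
  intro t
  rw [ev_QQ, ev_PP, ev_PP, tr_tr h, sub_self, map_zero]

theorem PP_eq (n : ℕ) (x : V ℝ) : PP n x = x - QQ n x := by
  rw [eq_sub_iff_add_eq]; exact PP_add_QQ n x

theorem QQ_ee {m : ℕ} {s : Nd} (h : m < s.length) : QQ m (ee s : V ℝ) = ee s := by
  apply ext_ev
  intro t
  rw [ev_QQ, ev_ee, ev_ee, sub_eq_self, if_neg]
  rintro ⟨h1, _⟩
  have h2 := h1.length_le
  rw [length_tr] at h2
  omega

theorem PP_ee {m : ℕ} {s : Nd} (h : s.length ≤ m) : PP m (ee s : V ℝ) = ee s := by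
  apply ext_ev
  intro t
  rw [ev_PP, ev_ee, ev_ee]
  have h1 : s <:+ tr m t ↔ s <:+ t := ⟨fun h1 => h1.trans (tr_suffix m t), fun h1 => suffix_tr h1 h⟩
  simp only [h1]

theorem PP_bound (v : Wd) (m : ℕ) {δ : ℝ} (hδ : 0 ≤ δ) (h : ∀ s : Nd, s.length ≤ m → |v (ee s)| ≤ δ)
    (x : V ℝ) : |v (PP m x)| ≤ 2 ^ (m + 1) * δ * ‖x‖ := by
  have key : ∀ k, k ≤ m → |v (PP k x)| ≤ 2 ^ (k + 1) * δ * ‖x‖ := by
    intro k
    induction k with
    | zero =>
      intro _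
      rw [PP_zero, map_zero, abs_zero]
      positivity
    | succ k ih =>
      intro hk
      rw [PP_succ, map_add, map_sum]
      have h1 := ih (by omega)
      have h2 : |∑ s ∈ lev (k + 1), v ((ev s x - ev s.tail x) • (ee s : V ℝ))| ≤
          2 ^ (k + 1) * δ * ‖x‖ := by
        calc |∑ s ∈ lev (k + 1), v ((ev s x - ev s.tail x) • (ee s : V ℝ))|
            ≤ ∑ s ∈ lev (k + 1), |v ((ev s x - ev s.tail x) • (ee s : V ℝ))| :=
              Finset.abs_sum_le_sum_abs _ _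
          _ ≤ ∑ s ∈ lev (k + 1), δ * ‖x‖ := by
              apply Finset.sum_le_sum
              intro s hs
              rw [mem_lev] at hs
              rw [map_smul, smul_eq_mul, abs_mul, mul_comm]
              have h3 : |ev s x - ev s.tail x| ≤ ‖x‖ := by
                have := path_le x (a := s.tail) (b := s) (List.tail_suffix s)
                rwa [Real.norm_eq_abs] at this
              exact mul_le_mul (h s (by omega)) h3 (abs_nonneg _) hδ
          _ = 2 ^ (k + 1) * δ * ‖x‖ := by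
              rw [Finset.sum_const, card_lev, nsmul_eq_mul]
              push_cast
              ring
      calc |v (PP k x) + ∑ s ∈ lev (k + 1), v ((ev s x - ev s.tail x) • (ee s : V ℝ))|
          ≤ |v (PP k x)| + |∑ s ∈ lev (k + 1), v ((ev s x - ev s.tail x) • (ee s : V ℝ))| :=
            abs_add_le _ _
        _ ≤ 2 ^ (k + 1) * δ * ‖x‖ + 2 ^ (k + 1) * δ * ‖x‖ := add_le_add h1 h2
        _ = 2 ^ (k + 1 + 1) * δ * ‖x‖ := by ring
  exact key m le_rfl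

/-! ### bands -/

/-- Lower `2`-estimate on disjoint bands of levels. -/
theorem bands {ι : Type} (S : Finset ι) (p q : ι → ℕ) (hpq : ∀ i ∈ S, p i ≤ q i)
    (hd : ∀ i ∈ S, ∀ j ∈ S, i ≠ j → ∀ k, ¬ ((p i < k ∧ k ≤ q i) ∧ (p j < k ∧ k ≤ q j))) (x : V ℝ) :
    ∑ i ∈ S, ‖QQ (p i) x - QQ (q i) x‖ ^ 2 ≤ ‖x‖ ^ 2 := by
  apply lower_two S x (fun i => QQ (p i) x - QQ (q i) x) (fun i t => p i < t.length ∧ t.length ≤ q i)
  · intro i hi j hj hij t ht
    exact hd i hi j hj hij t.length ht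
  · intro i hi a b hab
    have hv : ∀ t : Nd, ev t (QQ (p i) x - QQ (q i) x) = ev (tr (q i) t) x - ev (tr (p i) t) x := by
      intro t
      rw [map_sub, ev_QQ, ev_QQ]
      ring
    rw [hv, hv]
    have hpi := hpq i hi
    rcases Nat.lt_or_ge (p i) a.length with h1 | h1
    · rcases Nat.lt_or_ge (q i) a.length with h2 | h2
      · refine ⟨[], [], List.suffix_refl _, ?_, ?_⟩
        · rintro t ⟨_, h3, h4⟩
          exact absurd (List.suffix_nil.1 h4) h3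
        · rw [tr_eq_of_suffix hab h2.le, tr_eq_of_suffix hab h1.le]
          ring
      · refine ⟨a, tr (q i) b, suffix_tr hab h2, ?_, ?_⟩
        · intro t ht
          rw [inn_iff (suffix_tr hab h2)] at ht
          have h3 := ht.1.length_le
          rw [length_tr] at h3
          refine ⟨?_, by omega, by omega⟩
          rw [inn_iff hab]
          exact ⟨ht.1.trans (tr_suffix _ _), ht.2⟩
        · rw [tr_eq_of_suffix hab h1.le, tr_of_le h2]
          ring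
    · have h2 : a.length ≤ q i := h1.trans hpi
      have h5 : tr (p i) b <:+ tr (q i) b :=
        suffix_tr (tr_suffix _ _) (by rw [length_tr]; omega)
      refine ⟨tr (p i) b, tr (q i) b, h5, ?_, ?_⟩
      · intro t ht
        rw [inn_iff h5, length_tr] at ht
        have h3 := ht.1.length_le
        rw [length_tr] at h3
        have h6 := hab.length_le
        refine ⟨?_, ?_, by omega⟩
        · rw [inn_iff hab]
          refine ⟨ht.1.trans (tr_suffix _ _), ?_⟩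
          omega
        · omega
      · rw [tr_of_le h1, tr_of_le h2]
        ring

/-! ### limit functionals -/

theorem Lam_comp_QQ (γ : ℕ → Bool) (v : Wd) (m : ℕ) : Lam γ (v.comp (QQ m)) = Lam γ v := by
  refine tendsto_nhds_unique (Lam_lim γ (v.comp (QQ m))) ?_
  refine (Lam_lim γ v).congr' ?_
  filter_upwards [hyp_ge (m + 1)] with n hn
  show v (ee (bn γ n)) = v (QQ m (ee (bn γ n)))
  rw [QQ_ee (by rw [length_bn]; omega)]

/-- indexed version of the lower estimate for branches -/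
theorem sum_bb_idx {ι : Type} (S : Finset ι) (Γ : ι → (ℕ → Bool)) (N : ι → ℕ)
    (hN : ∀ i ∈ S, ∀ j ∈ S, i ≠ j → ∀ n, N i < n → N j < n → bn (Γ i) n ≠ bn (Γ j) n) (x : V ℝ) :
    ∑ i ∈ S, ‖bb (Γ i) x - ev (bn (Γ i) (N i)) x‖ ^ 2 ≤ ‖x‖ ^ 2 := by
  classical
  have h1 : Tendsto (fun m => ∑ i ∈ S, ‖ev (bn (Γ i) m) x - ev (bn (Γ i) (N i)) x‖ ^ 2)
      (hyperfilter ℕ : Filter ℕ) (𝓝 (∑ i ∈ S, ‖bb (Γ i) x - ev (bn (Γ i) (N i)) x‖ ^ 2)) :=
    tendsto_finsetSum _ fun i _ => (((bb_lim (Γ i) x).sub_const _).norm).pow 2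
  refine le_of_tendsto h1 ?_
  filter_upwards [hyp_ge (S.sup N)] with m hm
  have hle : ∀ i ∈ S, N i ≤ m := fun i hi => (Finset.le_sup (f := N) hi).trans hm
  refine sum_le x S (fun i => (bn (Γ i) (N i), bn (Γ i) m)) (fun i hi => bn_suffix _ (hle i hi)) ?_
  rintro i hi j hj hne t ⟨ht1, ht2⟩
  rw [inn_iff (bn_suffix _ (hle i hi)), length_bn] at ht1
  rw [inn_iff (bn_suffix _ (hle j hj)), length_bn] at ht2
  have e1 := suffix_bn_iff ht1.1
  have e2 := suffix_bn_iff ht2.1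
  exact hN i hi j hj hne t.length ht1.2 ht2.2 (e1.symm.trans e2)

/-- No mass on the branches: the tails are small. -/
theorem F1 (v : Wd) (hv : ∀ γ, Lam γ v = 0) {ε : ℝ} (hε : 0 < ε) :
    ∃ N, ∀ n, N ≤ n → ∀ x, |v (QQ n x)| ≤ ε * ‖x‖ := by
  have hC1 : ∀ γ : ℕ → Bool, ∀ ε > 0, ∃ n, ∀ x : V ℝ, ‖v (RR (bn γ n) x)‖ ≤ ε * ‖x‖ := by
    intro γ
    apply Pool.Agent.H973R3.JT.taskC1 ℝ v γ
    intro ε hε N
    have h3 := (Lam_lim γ v).norm
    rw [hv γ, norm_zero] at h3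
    have h4 : ∀ᶠ n in (hyperfilter ℕ : Filter ℕ), ‖v (ee (bn γ n))‖ < ε :=
      h3.eventually (gt_mem_nhds hε)
    obtain ⟨n, hn1, hn2⟩ := (h4.and (hyp_ge N)).exists
    exact ⟨n, hn2, hn1.le⟩
  obtain ⟨N, hN⟩ := taskC2 v hC1 ε hε
  refine ⟨N, fun n hn x => ?_⟩
  rw [← QQ_QQ hn, ← Real.norm_eq_abs]
  exact (hN _).trans (mul_le_mul_of_nonneg_left (QQ_le n x) hε.le)

/-- Prescribing the limits along the branches. -/
theorem lift (c : (ℕ → Bool) → ℝ) (hc : Summable (fun γ => ‖c γ‖ ^ 2)) :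
    ∃ (N : (ℕ → Bool) → ℕ) (g : Wd),
      HasSum (fun γ => c γ • ((bb γ : Wd) - ev (bn γ (N γ)))) g ∧ ∀ γ, Lam γ g = c γ := by
  classical
  obtain ⟨N, hN⟩ := exists_levels _ hc
  have hsum : Summable (fun γ => c γ • ((bb γ : Wd) - ev (bn γ (N γ)))) := by
    rw [summable_iff_vanishing_norm]
    intro ε hε
    obtain ⟨s, hs'⟩ := summable_iff_vanishing_norm.1 hc (ε ^ 2) (by positivity)
    refine ⟨s, fun t ht => ?_⟩
    have h3 := hs' t ht
    have h0 : 0 ≤ ∑ γ ∈ t, ‖c γ‖ ^ 2 := Finset.sum_nonneg fun i _ => by positivity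
    rw [Real.norm_eq_abs, abs_of_nonneg h0] at h3
    have e1 : ∑ γ ∈ t, c γ • ((bb γ : Wd) - ev (bn γ (N γ))) =
        ∑ γ ∈ t.filter (fun γ => ‖c γ‖ ^ 2 ≠ 0), c γ • ((bb γ : Wd) - ev (bn γ (N γ))) := by
      symm
      apply Finset.sum_filter_of_ne
      intro γ _ hne h
      apply hne
      have h4 : c γ = 0 := by
        have h5 := pow_eq_zero_iff (two_ne_zero) |>.1 h
        exact norm_eq_zero.1 h5
      rw [h4, zero_smul]
    rw [e1]
    have h4 := norm_sum_bb (𝕜 := ℝ) (t.filter (fun γ => ‖c γ‖ ^ 2 ≠ 0)) N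
      (fun γ hγ γ' hγ' hne n hn hn' => hN γ γ' (Finset.mem_filter.1 hγ).2 (Finset.mem_filter.1 hγ').2
        hne n hn hn') c
    refine lt_of_le_of_lt h4 ?_
    rw [Real.sqrt_lt' hε]
    refine lt_of_le_of_lt ?_ h3
    exact Finset.sum_le_sum_of_subset_of_nonneg (Finset.filter_subset _ _)
      (fun γ _ _ => by positivity)
  obtain ⟨g, hg⟩ := hsum
  refine ⟨N, g, hg, fun γ0 => ?_⟩
  have h3 := (Lam γ0).hasSum hg
  have h4 : HasSum (fun γ => Lam γ0 (c γ • ((bb γ : Wd) - ev (bn γ (N γ)))))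
      (Lam γ0 (c γ0 • ((bb γ0 : Wd) - ev (bn γ0 (N γ0))))) := by
    apply hasSum_single
    intro γ hne
    rw [map_smul, map_sub, Lam_bb_ne hne.symm, Lam_ev, sub_zero, smul_zero]
  have h5 : Lam γ0 (c γ0 • ((bb γ0 : Wd) - ev (bn γ0 (N γ0)))) = c γ0 := by
    rw [map_smul, map_sub, Lam_bb_self, Lam_ev, sub_zero, smul_eq_mul, mul_one]
  rw [h5] at h4
  exact h3.unique h4

theorem bb_QQ (γ : ℕ → Bool) (n : ℕ) (x : V ℝ) : bb γ (QQ n x) = bb γ x - ev (bn γ n) x := by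
  refine tendsto_nhds_unique (bb_lim γ (QQ n x)) ?_
  refine ((bb_lim γ x).sub_const _).congr' ?_
  filter_upwards [hyp_ge n] with m hm
  rw [ev_QQ]
  have h1 : bn γ n = tr n (bn γ m) := by
    apply eq_of_suffix_length (bn_suffix γ hm) (tr_suffix _ _)
    rw [length_tr, length_bn, length_bn]
    omega
  rw [← h1]

/-- The tails of a functional are carried by finitely many branches. -/
theorem F2 (v : Wd) {ε : ℝ} (hε : 0 < ε) :
    ∃ G0 : Finset (ℕ → Bool), ∀ G, G0 ⊆ G → ∃ N, ∀ n, N ≤ n → ∀ x : V ℝ,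
      |v (QQ n x) - ∑ γ ∈ G, Lam γ v * (bb γ x - ev (bn γ n) x)| ≤ ε * ‖x‖ := by
  classical
  obtain ⟨N, g, hg, hLg⟩ := lift (fun γ => Lam γ v) (summable_Lam v)
  have hvg : ∀ γ, Lam γ (v - g) = 0 := fun γ => by rw [map_sub, hLg, sub_self]
  obtain ⟨N1, hN1⟩ := F1 (v - g) hvg (half_pos hε)
  have h1 : ∀ᶠ G : Finset (ℕ → Bool) in atTop,
      dist (∑ γ ∈ G, Lam γ v • ((bb γ : Wd) - ev (bn γ (N γ)))) g < ε / 2 :=
    (Metric.tendsto_nhds.1 hg) (ε / 2) (half_pos hε)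
  obtain ⟨G0, hG0⟩ := eventually_atTop.1 h1
  refine ⟨G0, fun G hG => ⟨max N1 (G.sup N), fun n hn x => ?_⟩⟩
  have h2 := hG0 G hG
  rw [dist_eq_norm] at h2
  have h3 := hN1 n ((le_max_left _ _).trans hn) x
  have hNn : ∀ γ ∈ G, N γ ≤ n := fun γ hγ =>
    (Finset.le_sup (f := N) hγ).trans ((le_max_right _ _).trans hn)
  have h4 : (∑ γ ∈ G, Lam γ v • ((bb γ : Wd) - ev (bn γ (N γ))) : Wd) (QQ n x) =
      ∑ γ ∈ G, Lam γ v * (bb γ x - ev (bn γ n) x) := by
    rw [_root_.sum_apply]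
    apply Finset.sum_congr rfl
    intro γ hγ
    show Lam γ v * (bb γ (QQ n x) - ev (bn γ (N γ)) (QQ n x)) = _
    rw [bb_QQ, ev_QQ_le x (by rw [length_bn]; exact hNn γ hγ), sub_zero]
  have h5 : |(∑ γ ∈ G, Lam γ v • ((bb γ : Wd) - ev (bn γ (N γ))) - g : Wd) (QQ n x)| ≤ ε / 2 * ‖x‖ := by
    rw [← Real.norm_eq_abs]
    refine (ContinuousLinearMap.le_opNorm _ _).trans ?_
    exact mul_le_mul h2.le (QQ_le n x) (norm_nonneg _) (half_pos hε).le
  have h6 : v (QQ n x) - ∑ γ ∈ G, Lam γ v * (bb γ x - ev (bn γ n) x) =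
      (v - g) (QQ n x) - (∑ γ ∈ G, Lam γ v • ((bb γ : Wd) - ev (bn γ (N γ))) - g : Wd) (QQ n x) := by
    rw [_root_.sub_apply, _root_.sub_apply, h4]
    ring
  rw [h6]
  calc |(v - g) (QQ n x) - (∑ γ ∈ G, Lam γ v • ((bb γ : Wd) - ev (bn γ (N γ))) - g : Wd) (QQ n x)|
      ≤ |(v - g) (QQ n x)| +
        |(∑ γ ∈ G, Lam γ v • ((bb γ : Wd) - ev (bn γ (N γ))) - g : Wd) (QQ n x)| := abs_sub _ _
    _ ≤ ε / 2 * ‖x‖ + ε / 2 * ‖x‖ := add_le_add h3 h5
    _ = ε * ‖x‖ := by ring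

/-- the norm of a combination of limit functionals -/
theorem norm_sum_Lam (G : Finset (ℕ → Bool)) (d : (ℕ → Bool) → ℝ) :
    ‖∑ γ ∈ G, d γ • (Lam γ : Wdd)‖ ≤ Real.sqrt (∑ γ ∈ G, ‖d γ‖ ^ 2) := by
  refine ContinuousLinearMap.opNorm_le_bound _ (Real.sqrt_nonneg _) fun v => ?_
  have e1 : (∑ γ ∈ G, d γ • (Lam γ : Wdd)) v = ∑ γ ∈ G, d γ * Lam γ v := by
    rw [_root_.sum_apply]
    rfl
  rw [e1]
  have h1 : ‖∑ γ ∈ G, d γ * Lam γ v‖ ≤ ∑ γ ∈ G, ‖d γ‖ * ‖Lam γ v‖ :=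
    (norm_sum_le _ _).trans (le_of_eq (Finset.sum_congr rfl fun γ _ => norm_mul _ _))
  exact h1.trans (cs_bound G _ _ ‖v‖ (fun _ => norm_nonneg _) (fun _ => norm_nonneg _)
    (norm_nonneg _) (sum_Lam_le G v))

/-- the singular part of a bidual functional is a norm limit of combinations of the limit
functionals -/
theorem z_approx (z : Wdd) (hz : ∀ s, z (ev s) = 0) {ε : ℝ} (hε : 0 < ε) :
    ∃ G : Finset (ℕ → Bool), ‖z - ∑ γ ∈ G, z (bb γ) • (Lam γ : Wdd)‖ ≤ ε := by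
  classical
  have hs := summable_z z hz
  obtain ⟨G, hG⟩ := summable_iff_vanishing_norm.1 hs (ε ^ 2) (by positivity)
  refine ⟨G, ?_⟩
  set w : Wdd := z - ∑ γ ∈ G, z (bb γ) • (Lam γ : Wdd) with hw
  have hws : ∀ s, w (ev s) = 0 := by
    intro s
    show z (ev s) - (∑ γ ∈ G, z (bb γ) • (Lam γ : Wdd)) (ev s) = 0
    rw [hz, _root_.sum_apply, zero_sub, neg_eq_zero]
    apply Finset.sum_eq_zero
    intro γ _
    show z (bb γ) * Lam γ (ev s) = 0
    rw [Lam_ev, mul_zero]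
  have hwb : ∀ γ, w (bb γ) = if γ ∈ G then 0 else z (bb γ) := by
    intro γ
    show z (bb γ) - (∑ γ' ∈ G, z (bb γ') • (Lam γ' : Wdd)) (bb γ) = _
    rw [_root_.sum_apply]
    have e1 : ∀ γ' ∈ G, (z (bb γ') • (Lam γ' : Wdd)) (bb γ) = if γ' = γ then z (bb γ) else 0 := by
      intro γ' _
      show z (bb γ') * Lam γ' (bb γ) = _
      split_ifs with h
      · rw [h, Lam_bb_self, mul_one]
      · rw [Lam_bb_ne h, mul_zero]
    rw [Finset.sum_congr rfl e1, Finset.sum_ite_eq']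
    split_ifs
    · rw [sub_self]
    · rw [sub_zero]
  have h1 := norm_z (Pool.Agent.H973R3.JT.taskC1 ℝ) taskC2 w hws
  have h2 : ∑' γ, ‖w (bb γ)‖ ^ 2 ≤ ε ^ 2 := by
    apply (summable_z w hws).tsum_le_of_sum_le
    intro T
    have e2 : ∑ γ ∈ T, ‖w (bb γ)‖ ^ 2 = ∑ γ ∈ T \ G, ‖z (bb γ)‖ ^ 2 := by
      symm
      have e3 : ∑ γ ∈ T \ G, ‖z (bb γ)‖ ^ 2 = ∑ γ ∈ T \ G, ‖w (bb γ)‖ ^ 2 := by
        apply Finset.sum_congr rfl
        intro γ hγ
        rw [hwb, if_neg (Finset.mem_sdiff.1 hγ).2]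
      rw [e3]
      apply Finset.sum_subset Finset.sdiff_subset
      intro γ hγ hγ'
      have : γ ∈ G := by
        by_contra h
        exact hγ' (Finset.mem_sdiff.2 ⟨hγ, h⟩)
      rw [hwb, if_pos this, norm_zero]
      norm_num
    rw [e2]
    have h3 := hG (T \ G) Finset.sdiff_disjoint
    rw [Real.norm_eq_abs] at h3
    exact (le_abs_self _).trans h3.le
  rw [← h1] at h2
  exact lesq h2 hε.le

end Pool.Agent.Q199.JT
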