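import Pool.Agent.Q199.JT.Seg
import Pool.Agent.Q199.JT.VD

/-!
# The James space: embeddings into the tree space and functionals
-/

set_option autoImplicit false
open Filter Topology Finset

namespace Pool.Agent.Q199.JT

open Pool.Agent.H585R4.JT Pool.Agent.H511R3.JT

/-- the finitely supported part of the James space -/
abbrev J0 : Type := natSys.Sp

/-- coordinates -/
noncomputable abbrev cf : J0 ≃ₗ[ℝ] (ℕ →₀ ℝ) := natSys.toF

/-- the unit vectors -/
noncomputable def en (k : ℕ) : J0 := cf.symm (Finsupp.single k 1)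

theorem cf_en (k : ℕ) : cf (en k) = Finsupp.single k 1 := LinearEquiv.apply_symm_apply _ _

theorem en_le (k : ℕ) : ‖en k‖ ≤ 1 := by
  apply natSys.norm_le zero_le_one
  intro P hP
  refine (natSys.fam_bound hP _).trans (le_of_eq ?_)
  have h1 : natSys.toF (en k) = Finsupp.single k 1 := cf_en k
  have h2 : (Finsupp.single k (1 : ℝ)).support = {k} := by
    ext j
    rw [Finsupp.mem_support_iff, Finset.mem_singleton, Finsupp.single_apply]
    by_cases h : k = j
    · simp [h]
    · simp [h, Ne.symm h]
  rw [h1, h2, Finset.sum_singleton, Finsupp.single_eq_same]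
  simp

theorem exists_K (x : J0) : ∃ K, (cf x).support ⊆ Finset.range K := by
  refine ⟨(cf x).support.sup id + 1, fun k hk => ?_⟩
  rw [Finset.mem_range]
  exact Nat.lt_succ_of_le (Finset.le_sup (f := id) hk)

theorem expand (x : J0) {K : ℕ} (hK : (cf x).support ⊆ Finset.range K) :
    x = ∑ k ∈ Finset.range K, cf x k • en k := by
  apply cf.injective
  rw [map_sum]
  have h1 : ∀ k ∈ Finset.range K, cf (cf x k • en k) = Finsupp.single k (cf x k) := by
    intro k _
    rw [map_smul, cf_en, Finsupp.smul_single, smul_eq_mul, mul_one]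
  rw [Finset.sum_congr rfl h1]
  conv_lhs => rw [← Finsupp.sum_single (cf x)]
  exact Finsupp.sum_of_support_subset _ hK _ (fun i _ => Finsupp.single_zero i)

theorem map_expand {Z : Type} [AddCommGroup Z] [Module ℝ Z] (T : J0 →ₗ[ℝ] Z) (x : J0) {K : ℕ}
    (hK : (cf x).support ⊆ Finset.range K) : T x = ∑ k ∈ Finset.range K, cf x k • T (en k) := by
  conv_lhs => rw [expand x hK]
  rw [map_sum]
  exact Finset.sum_congr rfl fun k _ => map_smul _ _ _

/-- the sum functional as a linear map -/
noncomputable def Bl : J0 →ₗ[ℝ] ℝ := (Finsupp.linearCombination ℝ (fun _ : ℕ => (1 : ℝ))) ∘ₗ cf.toLinearMap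

theorem Bl_en (k : ℕ) : Bl (en k) = 1 := by
  show Finsupp.linearCombination ℝ (fun _ : ℕ => (1 : ℝ)) (cf (en k)) = 1
  rw [cf_en, Finsupp.linearCombination_single, one_smul]

theorem Bl_eq (x : J0) {K : ℕ} (hK : (cf x).support ⊆ Finset.range K) :
    Bl x = ∑ k ∈ Finset.range K, cf x k := by
  rw [map_expand Bl x hK]
  apply Finset.sum_congr rfl
  intro k _
  rw [Bl_en, smul_eq_mul, mul_one]

theorem Bl_le (x : J0) : |Bl x| ≤ ‖x‖ := by
  obtain ⟨K, hK⟩ := exists_K x
  rw [Bl_eq x hK]
  have h1 := natSys.sum_idx ({()} : Finset Unit) (fun _ => Finset.range K) (by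
    intro i _
    left
    apply icc_of_convex
    intro i _ k hk j _ hjk
    rw [Finset.mem_range] at hk ⊢
    omega) (by
    intro i hi j hj hne
    exact absurd (Subsingleton.elim i j) hne) (cf x)
  rw [Finset.sum_singleton] at h1
  exact abs_le_of_sq_le_sq' h1 (norm_nonneg x) |> fun h => abs_le.2 h

/-- the sum functional -/
noncomputable def BB : StrongDual ℝ J0 := Bl.mkContinuous 1 (fun x => by
  rw [one_mul, Real.norm_eq_abs]
  exact Bl_le x)

theorem BB_apply (x : J0) : BB x = Bl x := rfl

/-- the coordinate functional at `0` -/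
noncomputable def ev0 : StrongDual ℝ J0 :=
  ((Finsupp.lapply (R := ℝ) (M := ℝ) (0 : ℕ)) ∘ₗ cf.toLinearMap).mkContinuous 1 (fun x => by
    rw [one_mul, Real.norm_eq_abs]
    exact natSys.coord_le x 0)

theorem ev0_apply (x : J0) : ev0 x = cf x 0 := rfl

/-! ### the shifts -/

/-- left shift -/
noncomputable def Ll : J0 →ₗ[ℝ] J0 :=
  cf.symm.toLinearMap ∘ₗ (Finsupp.lcomapDomain (fun k : ℕ => k + 1) (add_left_injective 1)) ∘ₗ
    cf.toLinearMap

theorem cf_Ll (x : J0) (k : ℕ) : cf (Ll x) k = cf x (k + 1) := rfl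

theorem Ll_le (x : J0) : ‖Ll x‖ ≤ ‖x‖ := by
  classical
  apply natSys.norm_le (norm_nonneg _)
  intro P hP
  have e1 : ∀ s ∈ P, (∑ a ∈ s, natSys.toF (Ll x) a) ^ 2 =
      (∑ a ∈ s.image (fun k => k + 1), cf x a) ^ 2 := by
    intro s _
    rw [Finset.sum_image (fun i _ j _ h => add_left_injective 1 h)]
    rfl
  rw [Finset.sum_congr rfl e1]
  apply natSys.sum_idx P (fun s => s.image (fun k => k + 1))
  · intro s hs
    left
    obtain ⟨m, n, rfl⟩ := hP.1 s hs
    apply icc_of_convex
    intro i hi k hk j hij hjk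
    rw [Finset.mem_image] at hi hk ⊢
    obtain ⟨i', hi', rfl⟩ := hi
    obtain ⟨k', hk', rfl⟩ := hk
    rw [Finset.mem_Icc] at hi' hk'
    refine ⟨j - 1, Finset.mem_Icc.2 ⟨by omega, by omega⟩, by omega⟩
  · intro s hs t ht hne
    rw [Finset.disjoint_image (add_left_injective 1)]
    exact hP.2 s hs t ht hne

/-- right shift -/
noncomputable def Rl : J0 →ₗ[ℝ] J0 :=
  cf.symm.toLinearMap ∘ₗ (Finsupp.lmapDomain ℝ ℝ (fun k : ℕ => k + 1)) ∘ₗ cf.toLinearMap

theorem cf_Rl_succ (x : J0) (k : ℕ) : cf (Rl x) (k + 1) = cf x k := by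
  show Finsupp.mapDomain (fun k : ℕ => k + 1) (cf x) (k + 1) = cf x k
  exact Finsupp.mapDomain_apply (add_left_injective 1) _ _

theorem cf_Rl_zero (x : J0) : cf (Rl x) 0 = 0 := by
  show Finsupp.mapDomain (fun k : ℕ => k + 1) (cf x) 0 = 0
  apply Finsupp.mapDomain_of_notMem_range
  rintro ⟨k, hk⟩
  simp at hk

theorem Ll_Rl (x : J0) : Ll (Rl x) = x := by
  apply cf.injective
  ext k
  rw [cf_Ll, cf_Rl_succ]

theorem Rl_le (x : J0) : ‖Rl x‖ ≤ ‖x‖ := by
  classical
  apply natSys.norm_le (norm_nonneg _)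
  intro P hP
  have e1 : ∀ s ∈ P, (∑ a ∈ s, natSys.toF (Rl x) a) ^ 2 =
      (∑ a ∈ s.preimage (fun k => k + 1) ((add_left_injective 1).injOn), cf x a) ^ 2 := by
    intro s _
    congr 1
    have h1 : ∑ a ∈ s.preimage (fun k => k + 1) ((add_left_injective 1).injOn), cf x a =
        ∑ a ∈ s.preimage (fun k => k + 1) ((add_left_injective 1).injOn), cf (Rl x) (a + 1) :=
      Finset.sum_congr rfl fun a _ => (cf_Rl_succ x a).symm
    rw [h1]
    have h2 := Finset.sum_preimage (fun k : ℕ => k + 1) s ((add_left_injective 1).injOn)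
      (fun a => cf (Rl x) a) (by
        intro a _ ha
        have : a = 0 := by
          by_contra hne
          exact ha ⟨a - 1, by show a - 1 + 1 = a; omega⟩
        rw [this, cf_Rl_zero])
    exact h2.symm
  rw [Finset.sum_congr rfl e1]
  apply natSys.sum_idx P (fun s => s.preimage (fun k => k + 1) ((add_left_injective 1).injOn))
  · intro s hs
    left
    obtain ⟨m, n, rfl⟩ := hP.1 s hs
    apply icc_of_convex
    intro i hi k hk j hij hjk
    rw [Finset.mem_preimage, Finset.mem_Icc] at hi hk ⊢
    omega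
  · intro s hs t ht hne
    rw [Finset.disjoint_left]
    intro a ha hb
    rw [Finset.mem_preimage] at ha hb
    exact Finset.disjoint_left.1 (hP.2 s hs t ht hne) ha hb

/-! ### the embeddings along a branch -/

section DD

variable (γ : ℕ → Bool) (l : ℕ → ℕ)

/-- the map sending the unit vectors to the nodes of levels `l k` of the branch -/
noncomputable def Dm : J0 →ₗ[ℝ] V ℝ :=
  (Finsupp.linearCombination ℝ (fun k => (ee (bn γ (l k)) : V ℝ))) ∘ₗ cf.toLinearMap

theorem Dm_en (k : ℕ) : Dm γ l (en k) = ee (bn γ (l k)) := by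
  show Finsupp.linearCombination ℝ (fun k => (ee (bn γ (l k)) : V ℝ)) (cf (en k)) = _
  rw [cf_en, Finsupp.linearCombination_single, one_smul]

theorem map_Dm (φ : Wd) (x : J0) {K : ℕ} (hK : (cf x).support ⊆ Finset.range K) :
    φ (Dm γ l x) = ∑ k ∈ Finset.range K, cf x k * φ (ee (bn γ (l k))) := by
  rw [map_expand (Dm γ l) x hK, map_sum]
  apply Finset.sum_congr rfl
  intro k _
  rw [map_smul, Dm_en, smul_eq_mul]

variable {γ l}

theorem bn_suffix_iff {m n : ℕ} : bn γ m <:+ bn γ n ↔ m ≤ n := by
  constructor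
  · intro h
    have := h.length_le
    rwa [length_bn, length_bn] at this
  · exact bn_suffix γ

theorem norm_Dm (hl : StrictMono l) (h0 : 1 ≤ l 0) (x : J0) : ‖Dm γ l x‖ = ‖x‖ := by
  classical
  have hl1 : ∀ k, 1 ≤ l k := fun k => h0.trans (hl.monotone (Nat.zero_le k))
  have hev : ∀ (t : Nd) {K : ℕ}, (cf x).support ⊆ Finset.range K → ev t (Dm γ l x) =
      ∑ k ∈ Finset.range K, cf x k * (if bn γ (l k) <:+ t then 1 else 0) := by
    intro t K hK
    rw [map_Dm γ l (ev t) x hK]
    apply Finset.sum_congr rfl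
    intro k _
    rw [ev_ee]
    congr 1
    have : bn γ (l k) ≠ [] := bn_ne_nil γ (hl1 k)
    simp [this]
  apply le_antisymm
  · obtain ⟨K, hK⟩ := exists_K x
    apply norm_le (norm_nonneg _)
    intro F hF
    have e1 : ∀ p ∈ F, ‖ev p.2 (Dm γ l x) - ev p.1 (Dm γ l x)‖ ^ 2 =
        (∑ a ∈ (Finset.range K).filter (fun k => Inn (bn γ (l k)) p), cf x a) ^ 2 := by
      intro p hp
      have hab := hF.1 p hp
      rw [hev p.2 hK, hev p.1 hK, ← Finset.sum_sub_distrib, Real.norm_eq_abs, sq_abs]
      congr 1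
      rw [Finset.sum_filter]
      apply Finset.sum_congr rfl
      intro k _
      have hiff := inn_iff (t := bn γ (l k)) hab
      by_cases h2 : bn γ (l k) <:+ p.2
      · by_cases h1 : bn γ (l k) <:+ p.1
        · rw [if_pos h2, if_pos h1, if_neg]
          · ring
          · intro h
            have := (hiff.1 h).2
            have := h1.length_le
            omega
        · rw [if_pos h2, if_neg h1, if_pos]
          · ring
          · apply hiff.2
            refine ⟨h2, ?_⟩
            by_contra hc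
            push Not at hc
            exact h1 (suffix_of_le h2 hab hc)
      · have h1 : ¬ bn γ (l k) <:+ p.1 := fun h => h2 (h.trans hab)
        rw [if_neg h2, if_neg h1, if_neg]
        · ring
        · intro h
          exact h2 (hiff.1 h).1
    rw [Finset.sum_congr rfl e1]
    apply natSys.sum_idx F (fun p => (Finset.range K).filter (fun k => Inn (bn γ (l k)) p))
    · intro p hp
      left
      apply icc_of_convex
      intro i hi k hk j hij hjk
      rw [Finset.mem_filter, Finset.mem_range, inn_iff (hF.1 p hp), length_bn] at hi hk ⊢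
      have h1 := hl.monotone hij
      refine ⟨by omega, (bn_suffix γ (hl.monotone hjk)).trans hk.2.1, by omega⟩
    · intro p hp q hq hne
      rw [Finset.disjoint_left]
      intro k hk hk'
      rw [Finset.mem_filter] at hk hk'
      exact hF.2 p hp q hq hne _ ⟨hk.2, hk'.2⟩
  · apply natSys.norm_le (norm_nonneg _)
    intro P hP
    have hmn : ∀ s : Finset ℕ, ∃ q : ℕ × ℕ, s ∈ P → s = Finset.Icc q.1 q.2 := by
      intro s
      by_cases hs : s ∈ P
      · obtain ⟨m, n, h⟩ := hP.1 s hs
        exact ⟨(m, n), fun _ => h⟩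
      · exact ⟨(0, 0), fun h => absurd h hs⟩
    choose q hq using hmn
    set T := P.filter (fun s => s.Nonempty) with hT
    have hle : ∀ s ∈ T, (q s).1 ≤ (q s).2 := by
      intro s hs
      rw [hT, Finset.mem_filter] at hs
      have h1 := hs.2
      rw [hq s hs.1, Finset.nonempty_Icc] at h1
      exact h1
    have h1 : ∑ s ∈ P, (∑ a ∈ s, natSys.toF x a) ^ 2 = ∑ s ∈ T, (∑ a ∈ s, natSys.toF x a) ^ 2 := by
      symm
      apply Finset.sum_subset (Finset.filter_subset _ _)
      intro s hs hns
      have : s = ∅ := by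
        by_contra hne
        exact hns (Finset.mem_filter.2 ⟨hs, Finset.nonempty_iff_ne_empty.2 hne⟩)
      rw [this, Finset.sum_empty]
      norm_num
    rw [h1]
    have e1 : ∀ s ∈ T, (∑ a ∈ s, natSys.toF x a) ^ 2 =
        ‖ev (bn γ (l (q s).2)) (Dm γ l x) - ev (bn γ (l (q s).1 - 1)) (Dm γ l x)‖ ^ 2 := by
      intro s hs
      have hs' := (Finset.mem_filter.1 hs).1
      obtain ⟨K0, hK0⟩ := exists_K x
      set K := max K0 ((q s).2 + 1) with hKd
      have hK : (cf x).support ⊆ Finset.range K := hK0.trans (by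
        intro k hk
        rw [Finset.mem_range] at hk ⊢
        omega)
      rw [hev _ hK, hev _ hK, ← Finset.sum_sub_distrib, Real.norm_eq_abs, sq_abs]
      congr 1
      have e2 : ∀ k ∈ Finset.range K, cf x k * (if bn γ (l k) <:+ bn γ (l (q s).2) then (1 : ℝ) else 0) -
          cf x k * (if bn γ (l k) <:+ bn γ (l (q s).1 - 1) then 1 else 0) =
          if k ∈ s then cf x k else 0 := by
        intro k _
        have hmem : k ∈ s ↔ (q s).1 ≤ k ∧ k ≤ (q s).2 := by
          conv_lhs => rw [hq s hs']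
          exact Finset.mem_Icc
        have i1 : bn γ (l k) <:+ bn γ (l (q s).2) ↔ k ≤ (q s).2 := bn_suffix_iff.trans hl.le_iff_le
        have i2 : bn γ (l k) <:+ bn γ (l (q s).1 - 1) ↔ k < (q s).1 := by
          rw [bn_suffix_iff, ← hl.lt_iff_lt]
          have := hl1 (q s).1
          omega
        have h2 := hle s hs
        by_cases c1 : k ≤ (q s).2
        · by_cases c2 : k < (q s).1
          · rw [if_pos (i1.2 c1), if_pos (i2.2 c2), if_neg (fun h => by have := hmem.1 h; omega)]
            ring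
          · rw [if_pos (i1.2 c1), if_neg (fun h => c2 (i2.1 h)), if_pos (hmem.2 ⟨by omega, c1⟩)]
            ring
        · rw [if_neg (fun h => c1 (i1.1 h)), if_neg (fun h => by have := i2.1 h; omega),
            if_neg (fun h => by have := hmem.1 h; omega)]
          ring
      rw [Finset.sum_congr rfl e2, ← Finset.sum_filter]
      apply Finset.sum_congr _ fun _ _ => rfl
      ext k
      rw [Finset.mem_filter, Finset.mem_range]
      constructor
      · intro hk
        refine ⟨?_, hk⟩
        rw [hq s hs', Finset.mem_Icc] at hk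
        omega
      · exact fun hk => hk.2
    rw [Finset.sum_congr rfl e1]
    have hpath : ∀ s, s ∈ T → bn γ (l (q s).1 - 1) <:+ bn γ (l (q s).2) := by
      intro s hs
      rw [bn_suffix_iff]
      have := hl.monotone (hle s hs)
      omega
    apply sum_le (Dm γ l x) T (fun s => (bn γ (l (q s).1 - 1), bn γ (l (q s).2))) hpath
    intro s hs t ht hne u hu
    obtain ⟨hu1, hu2⟩ := hu
    rw [inn_iff (hpath s hs), length_bn] at hu1
    rw [inn_iff (hpath t ht), length_bn] at hu2
    have hs' := (Finset.mem_filter.1 hs).1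
    have ht' := (Finset.mem_filter.1 ht).1
    have hd := hP.2 s hs' t ht' hne
    have h3 := hu1.1.length_le
    have h4 := hu2.1.length_le
    rw [length_bn] at h3 h4
    have h5 := hle s hs
    have h6 := hle t ht
    have hls := hl1 (q s).1
    have hlt := hl1 (q t).1
    rcases Nat.lt_or_ge (q s).2 (q t).1 with h7 | h7
    · have := hl h7
      omega
    · rcases Nat.lt_or_ge (q t).2 (q s).1 with h8 | h8
      · have := hl h8
        omega
      · have hms : ∀ k, k ∈ s ↔ (q s).1 ≤ k ∧ k ≤ (q s).2 := by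
          intro k
          conv_lhs => rw [hq s hs']
          exact Finset.mem_Icc
        have hmt : ∀ k, k ∈ t ↔ (q t).1 ≤ k ∧ k ≤ (q t).2 := by
          intro k
          conv_lhs => rw [hq t ht']
          exact Finset.mem_Icc
        rw [Finset.disjoint_left] at hd
        exact hd (a := max (q s).1 (q t).1) ((hms _).2 (by omega)) ((hmt _).2 (by omega))

end DD

end Pool.Agent.Q199.JT
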