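import Mathlib

/-!
# Spaces of James type defined by systems of segments
-/

set_option autoImplicit false
open Filter Topology Finset

namespace Pool.Agent.Q199.JT

/-- A system of finite subsets (segments) of an index set, containing all singletons. -/
structure SegSys (α : Type) where
  /-- the segments -/
  seg : Set (Finset α)
  /-- all singletons are segments -/
  single : ∀ a, {a} ∈ seg

namespace SegSys

variable {α : Type} (S : SegSys α)

/-- finite families of pairwise disjoint segments -/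
def IsFam (P : Finset (Finset α)) : Prop :=
  (∀ s ∈ P, s ∈ S.seg) ∧ ∀ s ∈ P, ∀ t ∈ P, s ≠ t → Disjoint s t

/-- The norm `sup_P (∑_{s ∈ P} (∑_{a ∈ s} x a) ^ 2) ^ (1 / 2)`, the supremum over all finite families
`P` of pairwise disjoint segments. -/
noncomputable def nrm (x : α →₀ ℝ) : ℝ :=
  sSup {r : ℝ | ∃ P, S.IsFam P ∧ r = Real.sqrt (∑ s ∈ P, (∑ a ∈ s, x a) ^ 2)}

theorem sum_sq_le_sq_sum' {ι : Type*} (P : Finset ι) (u : ι → ℝ) (hu : ∀ i ∈ P, 0 ≤ u i) :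
    ∑ i ∈ P, u i ^ 2 ≤ (∑ i ∈ P, u i) ^ 2 := by
  rw [sq (∑ i ∈ P, u i), Finset.sum_mul]
  apply Finset.sum_le_sum
  intro i hi
  rw [sq]
  exact mul_le_mul_of_nonneg_left (Finset.single_le_sum hu hi) (hu i hi)

theorem fam_bound {P : Finset (Finset α)} (hP : S.IsFam P) (x : α →₀ ℝ) :
    ∑ s ∈ P, (∑ a ∈ s, x a) ^ 2 ≤ (∑ a ∈ x.support, |x a|) ^ 2 := by
  classical
  have h1 : ∑ s ∈ P, (∑ a ∈ s, x a) ^ 2 ≤ (∑ s ∈ P, |∑ a ∈ s, x a|) ^ 2 := by
    have : ∀ s ∈ P, (∑ a ∈ s, x a) ^ 2 = |∑ a ∈ s, x a| ^ 2 := fun s _ => (sq_abs _).symm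
    rw [Finset.sum_congr rfl this]
    exact sum_sq_le_sq_sum' P _ fun s _ => abs_nonneg _
  have h2 : ∑ s ∈ P, |∑ a ∈ s, x a| ≤ ∑ a ∈ x.support, |x a| := by
    calc ∑ s ∈ P, |∑ a ∈ s, x a| ≤ ∑ s ∈ P, ∑ a ∈ s, |x a| :=
          Finset.sum_le_sum fun s _ => Finset.abs_sum_le_sum_abs _ _
      _ = ∑ a ∈ P.biUnion id, |x a| := by
          rw [Finset.sum_biUnion]
          · rfl
          · intro s hs t ht hne
            exact hP.2 s hs t ht hne
      _ ≤ ∑ a ∈ P.biUnion id ∪ x.support, |x a| :=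
          Finset.sum_le_sum_of_subset_of_nonneg Finset.subset_union_left fun _ _ _ => abs_nonneg _
      _ = ∑ a ∈ x.support, |x a| := by
          symm
          apply Finset.sum_subset Finset.subset_union_right
          intro a _ ha
          rw [Finsupp.notMem_support_iff.1 ha, abs_zero]
  exact h1.trans (pow_le_pow_left₀ (Finset.sum_nonneg fun _ _ => abs_nonneg _) h2 2)

theorem bdd (x : α →₀ ℝ) :
    BddAbove {r : ℝ | ∃ P, S.IsFam P ∧ r = Real.sqrt (∑ s ∈ P, (∑ a ∈ s, x a) ^ 2)} := by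
  refine ⟨∑ a ∈ x.support, |x a|, ?_⟩
  rintro r ⟨P, hP, rfl⟩
  rw [← Real.sqrt_sq (Finset.sum_nonneg fun a (_ : a ∈ x.support) => abs_nonneg (x a))]
  exact Real.sqrt_le_sqrt (S.fam_bound hP x)

theorem isFam_empty : S.IsFam ∅ := ⟨by simp, by simp⟩

theorem nrm_nonneg (x : α →₀ ℝ) : 0 ≤ S.nrm x :=
  le_csSup_of_le (S.bdd x) ⟨∅, S.isFam_empty, rfl⟩ (Real.sqrt_nonneg _)

theorem le_nrm {P : Finset (Finset α)} (hP : S.IsFam P) (x : α →₀ ℝ) :
    Real.sqrt (∑ s ∈ P, (∑ a ∈ s, x a) ^ 2) ≤ S.nrm x := le_csSup (S.bdd x) ⟨P, hP, rfl⟩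

theorem sq_le_nrm {P : Finset (Finset α)} (hP : S.IsFam P) (x : α →₀ ℝ) :
    ∑ s ∈ P, (∑ a ∈ s, x a) ^ 2 ≤ S.nrm x ^ 2 := by
  have h0 : 0 ≤ ∑ s ∈ P, (∑ a ∈ s, x a) ^ 2 := Finset.sum_nonneg fun _ _ => by positivity
  rw [← Real.sq_sqrt h0]
  exact pow_le_pow_left₀ (Real.sqrt_nonneg _) (S.le_nrm hP x) 2

theorem nrm_le {x : α →₀ ℝ} {C : ℝ} (hC : 0 ≤ C)
    (h : ∀ P, S.IsFam P → ∑ s ∈ P, (∑ a ∈ s, x a) ^ 2 ≤ C ^ 2) : S.nrm x ≤ C := by
  refine csSup_le (Set.nonempty_of_mem (x := Real.sqrt (∑ s ∈ (∅ : Finset (Finset α)), _))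
    ⟨∅, S.isFam_empty, rfl⟩) ?_
  rintro r ⟨P, hP, rfl⟩
  rw [← Real.sqrt_sq hC]
  exact Real.sqrt_le_sqrt (h P hP)

theorem abs_le_nrm (x : α →₀ ℝ) (a : α) : |x a| ≤ S.nrm x := by
  have hP : S.IsFam {{a}} := by
    refine ⟨?_, ?_⟩
    · intro s hs
      rw [Finset.mem_singleton] at hs
      rw [hs]
      exact S.single a
    · intro s hs t ht hne
      rw [Finset.mem_singleton] at hs ht
      exact absurd (hs.trans ht.symm) hne
  have h := S.le_nrm hP x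
  rwa [Finset.sum_singleton, Finset.sum_singleton, Real.sqrt_sq_eq_abs] at h

theorem sqrt_eq_norm (P : Finset (Finset α)) (x : α →₀ ℝ) :
    Real.sqrt (∑ s ∈ P, (∑ a ∈ s, x a) ^ 2) =
      ‖(WithLp.toLp 2 (fun s : P => ∑ a ∈ s.1, x a) : EuclideanSpace ℝ P)‖ := by
  rw [EuclideanSpace.norm_eq]
  congr 1
  rw [← Finset.sum_coe_sort P]
  apply Finset.sum_congr rfl
  intro s _
  simp

theorem nrm_add_le (x y : α →₀ ℝ) : S.nrm (x + y) ≤ S.nrm x + S.nrm y := by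
  refine csSup_le (Set.nonempty_of_mem (x := Real.sqrt (∑ s ∈ (∅ : Finset (Finset α)), _))
    ⟨∅, S.isFam_empty, rfl⟩) ?_
  rintro r ⟨P, hP, rfl⟩
  refine le_trans ?_ (add_le_add (S.le_nrm hP x) (S.le_nrm hP y))
  rw [sqrt_eq_norm, sqrt_eq_norm, sqrt_eq_norm]
  have : (WithLp.toLp 2 (fun s : P => ∑ a ∈ s.1, (x + y) a) : EuclideanSpace ℝ P) =
      WithLp.toLp 2 (fun s : P => ∑ a ∈ s.1, x a) + WithLp.toLp 2 (fun s : P => ∑ a ∈ s.1, y a) := by
    ext s
    simp [Finset.sum_add_distrib]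
  rw [this]
  exact norm_add_le _ _

theorem nrm_smul_le (c : ℝ) (x : α →₀ ℝ) : S.nrm (c • x) ≤ |c| * S.nrm x := by
  apply S.nrm_le (mul_nonneg (abs_nonneg _) (S.nrm_nonneg _))
  intro P hP
  rw [mul_pow, sq_abs]
  have : ∀ s ∈ P, (∑ a ∈ s, (c • x) a) ^ 2 = c ^ 2 * (∑ a ∈ s, x a) ^ 2 := by
    intro s _
    rw [← mul_pow, Finset.mul_sum]
    rfl
  rw [Finset.sum_congr rfl this, ← Finset.mul_sum]
  exact mul_le_mul_of_nonneg_left (S.sq_le_nrm hP x) (by positivity)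

theorem nrm_zero : S.nrm 0 = 0 := by
  apply le_antisymm _ (S.nrm_nonneg _)
  apply S.nrm_le le_rfl
  intro P _
  have : ∀ s ∈ P, (∑ a ∈ s, (0 : α →₀ ℝ) a) ^ 2 = 0 := by
    intro s _
    simp
  exact (Finset.sum_eq_zero this).le.trans (by norm_num)

theorem nrm_neg (x : α →₀ ℝ) : S.nrm (-x) = S.nrm x := by
  have h1 : ∀ y : α →₀ ℝ, S.nrm (-y) ≤ S.nrm y := by
    intro y
    have := S.nrm_smul_le (-1) y
    rwa [neg_one_smul, abs_neg, abs_one, one_mul] at this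
  apply le_antisymm (h1 x)
  have h2 := h1 (-x)
  rwa [neg_neg] at h2

theorem eq_zero_of_nrm (x : α →₀ ℝ) (hx : S.nrm x = 0) : x = 0 := by
  apply Finsupp.ext
  intro a
  have := S.abs_le_nrm x a
  rw [hx] at this
  exact abs_nonpos_iff.1 this

/-- The finitely supported real functions, with the norm `nrm`. -/
def Sp (_S : SegSys α) : Type := α →₀ ℝ

noncomputable instance : AddCommGroup S.Sp := inferInstanceAs (AddCommGroup (α →₀ ℝ))
noncomputable instance : Module ℝ S.Sp := inferInstanceAs (Module ℝ (α →₀ ℝ))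

/-- the norm on the finitely supported functions -/
noncomputable def agNorm : AddGroupNorm S.Sp where
  toFun x := S.nrm (x : α →₀ ℝ)
  map_zero' := S.nrm_zero
  add_le' x y := S.nrm_add_le x y
  neg' x := S.nrm_neg x
  eq_zero_of_map_eq_zero' x hx := S.eq_zero_of_nrm x hx

noncomputable instance : NormedAddCommGroup S.Sp := S.agNorm.toNormedAddCommGroup

theorem norm_def (x : S.Sp) : ‖x‖ = S.nrm (x : α →₀ ℝ) := rfl

noncomputable instance : NormedSpace ℝ S.Sp where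
  norm_smul_le c x := S.nrm_smul_le c x

/-- the underlying function -/
noncomputable def toF : S.Sp ≃ₗ[ℝ] (α →₀ ℝ) := LinearEquiv.refl ℝ (α →₀ ℝ)

theorem norm_toF (x : S.Sp) : ‖x‖ = S.nrm (S.toF x) := rfl

theorem norm_le {x : S.Sp} {C : ℝ} (hC : 0 ≤ C)
    (h : ∀ P, S.IsFam P → ∑ s ∈ P, (∑ a ∈ s, S.toF x a) ^ 2 ≤ C ^ 2) : ‖x‖ ≤ C := S.nrm_le hC h

theorem coord_le (x : S.Sp) (a : α) : |S.toF x a| ≤ ‖x‖ := S.abs_le_nrm _ a

/-- The completion of the space of finitely supported functions. -/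
abbrev Bn : Type := UniformSpace.Completion S.Sp

/-- indexed version of the lower estimate -/
theorem sum_idx {ι : Type} (T : Finset ι) (ρ : ι → Finset α)
    (hρ : ∀ i ∈ T, ρ i ∈ S.seg ∨ ρ i = ∅) (hd : ∀ i ∈ T, ∀ j ∈ T, i ≠ j → Disjoint (ρ i) (ρ j))
    (x : α →₀ ℝ) : ∑ i ∈ T, (∑ a ∈ ρ i, x a) ^ 2 ≤ S.nrm x ^ 2 := by
  classical
  set T' := T.filter (fun i => ρ i ≠ ∅) with hT'
  have h1 : ∑ i ∈ T, (∑ a ∈ ρ i, x a) ^ 2 = ∑ i ∈ T', (∑ a ∈ ρ i, x a) ^ 2 := by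
    symm
    apply Finset.sum_subset (Finset.filter_subset _ _)
    intro i hi hni
    have : ρ i = ∅ := by
      by_contra hne
      exact hni (Finset.mem_filter.2 ⟨hi, hne⟩)
    rw [this, Finset.sum_empty]
    norm_num
  have hinj : Set.InjOn ρ (T' : Set ι) := by
    intro i hi j hj hij
    by_contra hne
    have hi' := Finset.mem_filter.1 hi
    have hj' := Finset.mem_filter.1 hj
    have h2 := hd i hi'.1 j hj'.1 hne
    rw [← hij, disjoint_self] at h2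
    exact hi'.2 h2
  have h2 : ∑ i ∈ T', (∑ a ∈ ρ i, x a) ^ 2 = ∑ s ∈ T'.image ρ, (∑ a ∈ s, x a) ^ 2 := by
    rw [Finset.sum_image (fun i hi j hj h => hinj hi hj h)]
  rw [h1, h2]
  apply S.sq_le_nrm
  constructor
  · intro s hs
    obtain ⟨i, hi, rfl⟩ := Finset.mem_image.1 hs
    have hi' := Finset.mem_filter.1 hi
    exact (hρ i hi'.1).resolve_right hi'.2
  · intro s hs t ht hne
    obtain ⟨i, hi, rfl⟩ := Finset.mem_image.1 hs
    obtain ⟨j, hj, rfl⟩ := Finset.mem_image.1 ht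
    exact hd i (Finset.mem_filter.1 hi).1 j (Finset.mem_filter.1 hj).1 (fun h => hne (by rw [h]))

end SegSys

theorem tree_single (e : List Bool) : ({e} : Finset (List Bool)) ∈
    {s : Finset (List Bool) | ∃ a c : List Bool, a <+: c ∧ ∀ b, b ∈ s ↔ a <+: b ∧ b <+: c} :=
  ⟨e, e, List.prefix_refl e, fun b => by
    rw [Finset.mem_singleton]
    constructor
    · rintro rfl
      exact ⟨List.prefix_refl _, List.prefix_refl _⟩
    · rintro ⟨h1, h2⟩
      exact (h1.eq_of_length (le_antisymm h1.length_le h2.length_le)).symm⟩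

/-- The segments `{b | a ≤ b ≤ c}`, `a ≤ c`, of the dyadic tree of finite `0`-`1` sequences, ordered by
extension (`a <+: b` means that `a` is an initial part of `b`). -/
def treeSys : SegSys (List Bool) where
  seg := {s | ∃ a c : List Bool, a <+: c ∧ ∀ b, b ∈ s ↔ a <+: b ∧ b <+: c}
  single a := tree_single a

/-- The intervals of `ℕ`. -/
def natSys : SegSys ℕ where
  seg := {s | ∃ m n : ℕ, s = Finset.Icc m n}
  single a := ⟨a, a, (Finset.Icc_self a).symm⟩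

/-- The James tree space. -/
abbrev JTree : Type := treeSys.Bn

/-- The James quasi-reflexive space. -/
abbrev JSp : Type := natSys.Bn

/-- Reflexivity: every bounded functional on the dual is the evaluation at a point. -/
def IsRefl (E : Type) [NormedAddCommGroup E] [NormedSpace ℝ E] : Prop :=
  ∀ F : StrongDual ℝ (StrongDual ℝ E), ∃ x : E, ∀ f : StrongDual ℝ E, F f = f x

theorem isRefl_iff (E : Type) [NormedAddCommGroup E] [NormedSpace ℝ E] :
    IsRefl E ↔ Function.Surjective (NormedSpace.inclusionInDoubleDual ℝ E) := by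
  constructor
  · intro h F
    obtain ⟨x, hx⟩ := h F
    exact ⟨x, by ext f; exact (hx f).symm⟩
  · intro h F
    obtain ⟨x, hx⟩ := h F
    exact ⟨x, fun f => by rw [← hx]; rfl⟩

/-- The subspace `Y` of `X` has a closed subspace isomorphic to `Z`. -/
def Contains {X : Type} [NormedAddCommGroup X] [NormedSpace ℝ X] (Y : Submodule ℝ X)
    (Z : Type) [NormedAddCommGroup Z] [NormedSpace ℝ Z] : Prop :=
  ∃ W : Submodule ℝ X, W ≤ Y ∧ IsClosed (W : Set X) ∧ Nonempty (Z ≃L[ℝ] W)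

theorem icc_of_convex (s : Finset ℕ) (h : ∀ i ∈ s, ∀ k ∈ s, ∀ j, i ≤ j → j ≤ k → j ∈ s) :
    s ∈ natSys.seg := by
  rcases s.eq_empty_or_nonempty with h0 | h0
  · exact ⟨1, 0, by rw [h0]; rfl⟩
  · refine ⟨s.min' h0, s.max' h0, ?_⟩
    ext j
    rw [Finset.mem_Icc]
    constructor
    · intro hj
      exact ⟨s.min'_le j hj, s.le_max' j hj⟩
    · rintro ⟨h1, h2⟩
      exact h _ (s.min'_mem h0) _ (s.max'_mem h0) j h1 h2

end Pool.Agent.Q199.JT
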