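import Pool.Agent.Q199.JT.Fix

/-!
# The sequence in a nonreflexive subspace of the dual of the tree space
-/

set_option autoImplicit false
open Filter Topology Finset

namespace Pool.Agent.Q199.JT

open Pool.Agent.H585R4.JT Pool.Agent.H511R3.JT

/-- the data of one step of the construction -/
structure Pt (Y : Type) where
  /-- index of the error -/
  n : ℕ
  /-- the vector -/
  y : Y
  /-- the level up to which the vector is controlled -/
  m : ℕ
  /-- the branches on which the vector is controlled -/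
  Gp : Finset (ℕ → Bool)
  /-- the level of the test node -/
  l : ℕ
  /-- the next level -/
  m' : ℕ
  /-- the next set of branches -/
  G' : Finset (ℕ → Bool)

variable {Y : Type} [NormedAddCommGroup Y] [NormedSpace ℝ Y]

/-- the remainder -/
noncomputable def rem (E : Y →L[ℝ] Wd) (f g : Wd) (a : Pt Y) : Wd := E a.y - f - g.comp (QQ a.m)

/-- the internal properties of a step -/
structure Good (E : Y →L[ℝ] Wd) (f g : Wd) (α : (ℕ → Bool) → ℝ) (γ₀ : ℕ → Bool) (M : ℝ) (ε : ℕ → ℝ)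
    (a : Pt Y) : Prop where
  norm_le : ‖a.y‖ ≤ M
  exact0 : Lam γ₀ (E a.y) = α γ₀
  low : ∀ x : V ℝ, |(E a.y - f) (PP a.m x)| ≤ ε a.n * ‖x‖
  ctrl : ∀ γ ∈ a.Gp, |Lam γ (E a.y) - α γ| ≤ ε a.n / (a.Gp.card + 1)
  m_lt_l : a.m < a.l
  l_le : a.l ≤ a.m'
  sub : a.Gp ⊆ a.G'
  sep : ∀ γ ∈ a.G', ∀ γ' ∈ a.G', γ ≠ γ' → ∀ k, a.m' ≤ k → bn γ k ≠ bn γ' k
  testy : |E a.y (ee (bn γ₀ a.l)) - α γ₀| ≤ ε a.n
  testf : |f (ee (bn γ₀ a.l)) - Lam γ₀ f| ≤ ε a.n
  tail : ∀ x : V ℝ, |rem E f g a (QQ a.m' x) -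
    ∑ γ ∈ a.G', Lam γ (rem E f g a) * (bb γ x - ev (bn γ a.m') x)| ≤ ε a.n * ‖x‖

/-- the relation between an earlier and a later step -/
structure Bef (E : Y →L[ℝ] Wd) (α : (ℕ → Bool) → ℝ) (γ₀ : ℕ → Bool) (ε : ℕ → ℝ)
    (a b : Pt Y) : Prop where
  n_lt : a.n < b.n
  m_le : a.m' ≤ b.m
  G_sub : a.G' ⊆ b.Gp
  test : |E a.y (ee (bn γ₀ b.l)) - α γ₀| ≤ ε b.n

theorem exists_steps (E : Y →L[ℝ] Wd) (θ : StrongDual ℝ (StrongDual ℝ Y)) (γ₀ : ℕ → Bool) (g : Wd) :
    ∃ M : ℝ, 0 ≤ M ∧ ∀ ε : ℕ → ℝ, (∀ n, 0 < ε n) → ∃ a : ℕ → Pt Y,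
      (∀ k, Good E (fth E θ) g (fun γ => θ (pull E (Lam γ))) γ₀ M ε (a k)) ∧
      ∀ i k, i < k → Bef E (fun γ => θ (pull E (Lam γ))) γ₀ ε (a i) (a k) := by
  classical
  obtain ⟨M, hM0, hM⟩ := goldstine_exact θ (pull E (Lam γ₀))
  refine ⟨M, hM0, fun ε hε => ?_⟩
  set f := fth E θ with hf
  set α : (ℕ → Bool) → ℝ := fun γ => θ (pull E (Lam γ)) with hα
  apply exists_seq_of_forall_finset_exists
  intro s hs
  set n := s.sup (fun a => a.n) + 1 with hn
  set m := s.sup (fun a => a.m') with hm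
  set Gp := s.biUnion (fun a => a.G') with hGp
  -- the finitely many functionals
  set lo : Finset Nd := (Finset.range (m + 1)).biUnion lev with hlo
  have hmemlo : ∀ t : Nd, t.length ≤ m → t ∈ lo := by
    intro t ht
    rw [hlo, Finset.mem_biUnion]
    exact ⟨t.length, Finset.mem_range.2 (by omega), mem_lev.2 rfl⟩
  set B : Finset (StrongDual ℝ Y) :=
    lo.image (fun t => pull E (NormedSpace.inclusionInDoubleDual ℝ (V ℝ) (ee t))) ∪
      Gp.image (fun γ => pull E (Lam γ)) with hB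
  set δ : ℝ := min (ε n / 2 ^ (m + 1)) (ε n / (Gp.card + 1)) with hδ
  have hδ0 : 0 < δ := lt_min (div_pos (hε n) (by positivity)) (div_pos (hε n) (by positivity))
  obtain ⟨y, hy1, hy2, hy3⟩ := hM B δ hδ0
  have hlow : ∀ x : V ℝ, |(E y - f) (PP m x)| ≤ ε n * ‖x‖ := by
    intro x
    have h1 := PP_bound (E y - f) m hδ0.le (by
      intro t ht
      have h2 := hy3 (pull E (NormedSpace.inclusionInDoubleDual ℝ (V ℝ) (ee t)))
        (Finset.mem_union_left _ (Finset.mem_image_of_mem _ (hmemlo t ht)))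
      rw [_root_.sub_apply, hf, fth_apply]
      exact h2.le) x
    refine h1.trans (mul_le_mul_of_nonneg_right ?_ (norm_nonneg _))
    calc 2 ^ (m + 1) * δ ≤ 2 ^ (m + 1) * (ε n / 2 ^ (m + 1)) :=
          mul_le_mul_of_nonneg_left (min_le_left _ _) (by positivity)
      _ = ε n := by field_simp
  have hctrl : ∀ γ ∈ Gp, |Lam γ (E y) - α γ| ≤ ε n / (Gp.card + 1) := by
    intro γ hγ
    have h2 := hy3 (pull E (Lam γ)) (Finset.mem_union_right _ (Finset.mem_image_of_mem _ hγ))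
    exact h2.le.trans (min_le_right _ _)
  -- the remainder and its branches
  set r : Wd := E y - f - g.comp (QQ m) with hr
  obtain ⟨G0, hG0⟩ := F2 r (hε n)
  obtain ⟨N, hN⟩ := hG0 (G0 ∪ Gp) Finset.subset_union_left
  obtain ⟨n0, hn0⟩ := exists_sep (G0 ∪ Gp)
  -- the test level
  have hev1 : ∀ v : Wd, ∀ᶠ k in (hyperfilter ℕ : Filter ℕ), |v (ee (bn γ₀ k)) - Lam γ₀ v| < ε n := by
    intro v
    have h1 := (Metric.tendsto_nhds.1 (Lam_lim γ₀ v)) (ε n) (hε n)
    filter_upwards [h1] with k hk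
    rwa [Real.dist_eq] at hk
  have hev2 : ∀ᶠ k in (hyperfilter ℕ : Filter ℕ), ∀ a ∈ s, |E a.y (ee (bn γ₀ k)) - α γ₀| < ε n := by
    rw [Filter.eventually_all_finset]
    intro a ha
    have h1 := hev1 (E a.y)
    rw [(hs a ha).exact0] at h1
    exact h1
  have hey : Lam γ₀ (E y) = α γ₀ := hy2
  have hev3 := hev1 (E y)
  rw [hey] at hev3
  obtain ⟨l, ⟨⟨hl1, hl2⟩, hl3⟩, hl4⟩ :=
    (((hev2.and hev3).and (hev1 f)).and (hyp_ge (m + 1))).exists
  refine ⟨⟨n, y, m, Gp, l, max l (max N n0), G0 ∪ Gp⟩, ?_, ?_⟩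
  · exact
      { norm_le := hy1
        exact0 := hy2
        low := hlow
        ctrl := hctrl
        m_lt_l := hl4
        l_le := le_max_left _ _
        sub := Finset.subset_union_right
        sep := fun γ hγ γ' hγ' hne k hk => hn0 γ hγ γ' hγ' hne k
          (((le_max_right _ _).trans (le_max_right _ _)).trans hk)
        testy := hl2.le
        testf := hl3.le
        tail := fun x => hN _ ((le_max_left _ _).trans (le_max_right _ _)) x }
  · intro a ha
    exact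
      { n_lt := Nat.lt_succ_of_le (Finset.le_sup (f := fun a : Pt Y => a.n) ha)
        m_le := Finset.le_sup (f := fun a : Pt Y => a.m') ha
        G_sub := Finset.subset_biUnion_of_mem (fun a : Pt Y => a.G') ha
        test := (hl1 a ha).le }

end Pool.Agent.Q199.JT
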