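import Pool.Agent.Q199.JT.JMain

/-!
# The James tree space of the problem inside the model
-/

set_option autoImplicit false
open Filter Topology Finset

namespace Pool.Agent.Q199.JT

open Pool.Agent.H585R4.JT Pool.Agent.H511R3.JT

/-- finitely supported part of the James tree space -/
abbrev T0 : Type := treeSys.Sp

/-- coordinates -/
noncomputable abbrev ct : T0 ≃ₗ[ℝ] (List Bool →₀ ℝ) := treeSys.toF

/-- the node of the model corresponding to a `0`-`1` sequence -/
def nd (a : List Bool) : Nd := a.reverse ++ [true]

theorem length_nd (a : List Bool) : (nd a).length = a.length + 1 := by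
  simp [nd]

theorem nd_ne (a : List Bool) : nd a ≠ [] := by simp [nd]

theorem nd_suffix {a b : List Bool} : nd a <:+ nd b ↔ a <+: b := by
  rw [← List.reverse_prefix]
  have h : ∀ a : List Bool, (nd a).reverse = true :: a := fun a => by simp [nd]
  rw [h, h, List.prefix_cons_inj]

theorem cone_nd (a : List Bool) : [true] <:+ nd a := List.suffix_append _ _

theorem exists_nd {t : Nd} (h : [true] <:+ t) : ∃ a, t = nd a := by
  obtain ⟨s, rfl⟩ := h
  exact ⟨s.reverse, by simp [nd]⟩

theorem nd_tail {a k : List Bool} : nd k <:+ (nd a).tail ↔ k <+: a ∧ k ≠ a := by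
  constructor
  · intro h
    have h1 := h.trans (List.tail_suffix _)
    rw [nd_suffix] at h1
    refine ⟨h1, ?_⟩
    rintro rfl
    have := h.length_le
    rw [List.length_tail, length_nd] at this
    omega
  · rintro ⟨h1, h2⟩
    apply suffix_of_le (nd_suffix.2 h1) (List.tail_suffix _)
    rw [List.length_tail, length_nd, length_nd]
    have h3 := h1.length_le
    rcases lt_or_eq_of_le h3 with h4 | h4
    · omega
    · exact absurd (h1.eq_of_length h4) h2

/-- the map to the model -/
noncomputable def im : T0 →ₗ[ℝ] V ℝ :=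
  (Finsupp.linearCombination ℝ (fun a => (ee (nd a) : V ℝ))) ∘ₗ ct.toLinearMap

theorem im_eq (x : T0) : im x = ∑ k ∈ (ct x).support, ct x k • (ee (nd k) : V ℝ) := rfl

theorem ev_im (x : T0) (t : Nd) :
    ev t (im x) = ∑ k ∈ (ct x).support, (if nd k <:+ t then ct x k else 0) := by
  rw [im_eq, map_sum]
  apply Finset.sum_congr rfl
  intro k _
  rw [map_smul, ev_ee, smul_eq_mul]
  by_cases h : nd k <:+ t
  · rw [if_pos ⟨h, nd_ne k⟩, if_pos h, mul_one]
  · rw [if_neg (fun h' => h h'.1), if_neg h, mul_zero]

open scoped Classical in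
theorem sum_ite_support {α : Type} (f : α →₀ ℝ) (ρ : Finset α) :
    ∑ k ∈ f.support, (if k ∈ ρ then f k else 0) = ∑ k ∈ ρ, f k := by
  rw [← Finset.sum_filter]
  apply Finset.sum_subset
  · intro k hk
    exact (Finset.mem_filter.1 hk).2
  · intro k hk hnk
    by_contra hne
    exact hnk (Finset.mem_filter.2 ⟨Finsupp.mem_support_iff.2 hne, hk⟩)

/-- the set of sequences whose node lies on the path -/
noncomputable def rho (p : Nd × Nd) : Finset (List Bool) := by
  classical
  exact (p.2.tails.toFinset.filter (fun t => Inn t p ∧ [true] <:+ t)).image (fun t => t.reverse.tail)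

theorem mem_rho {p : Nd × Nd} {k : List Bool} : k ∈ rho p ↔ Inn (nd k) p := by
  classical
  unfold rho
  rw [Finset.mem_image]
  constructor
  · rintro ⟨t, ht, rfl⟩
    rw [Finset.mem_filter] at ht
    obtain ⟨a, rfl⟩ := exists_nd ht.2.2
    have h1 : (nd a).reverse.tail = a := by simp [nd]
    rw [h1]
    exact ht.2.1
  · intro h
    refine ⟨nd k, ?_, by simp [nd]⟩
    rw [Finset.mem_filter, List.mem_toFinset, List.mem_tails]
    exact ⟨h.2.2, h, cone_nd k⟩

theorem rho_seg {p : Nd × Nd} (hp : p.1 <:+ p.2) : rho p ∈ treeSys.seg ∨ rho p = ∅ := by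
  rcases (rho p).eq_empty_or_nonempty with h | ⟨k0, hk0⟩
  · exact Or.inr h
  · left
    rw [mem_rho] at hk0
    have h1 := (inn_iff hp).1 hk0
    obtain ⟨β, hβ⟩ := exists_nd ((cone_nd k0).trans h1.1)
    rw [hβ, nd_suffix] at h1
    have h2 := h1.1.length_le
    have h3 : p.1.length ≤ β.length := by
      have := h1.2
      rw [length_nd] at this
      omega
    refine ⟨β.take p.1.length, β, List.take_prefix _ _, fun b => ?_⟩
    have h4 : (β.take p.1.length).length = p.1.length := by
      rw [List.length_take]
      omega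
    have hiff : b ∈ rho p ↔ nd b <:+ p.2 ∧ p.1.length < (nd b).length := by
      rw [mem_rho]
      exact inn_iff hp
    rw [hiff, hβ, nd_suffix, length_nd]
    constructor
    · rintro ⟨h5, h6⟩
      exact ⟨List.prefix_of_prefix_length_le (List.take_prefix _ _) h5 (by rw [h4]; omega), h5⟩
    · rintro ⟨h5, h6⟩
      have := h5.length_le
      rw [h4] at this
      exact ⟨h6, by omega⟩

theorem norm_im (x : T0) : ‖im x‖ = ‖x‖ := by
  classical
  apply le_antisymm
  · apply norm_le (norm_nonneg _)
    intro F hF
    have e1 : ∀ p ∈ F, ‖ev p.2 (im x) - ev p.1 (im x)‖ ^ 2 = (∑ a ∈ rho p, ct x a) ^ 2 := by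
      intro p hp
      have hab := hF.1 p hp
      rw [ev_im, ev_im, ← Finset.sum_sub_distrib, Real.norm_eq_abs, sq_abs]
      congr 1
      rw [← sum_ite_support (ct x) (rho p)]
      apply Finset.sum_congr rfl
      intro k _
      have hiff := inn_iff (t := nd k) hab
      by_cases h2 : nd k <:+ p.2
      · by_cases h1 : nd k <:+ p.1
        · rw [if_pos h2, if_pos h1, if_neg]
          · ring
          · intro h
            rw [mem_rho] at h
            have := (hiff.1 h).2
            have := h1.length_le
            omega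
        · rw [if_pos h2, if_neg h1, if_pos]
          · ring
          · rw [mem_rho]
            apply hiff.2
            refine ⟨h2, ?_⟩
            by_contra hc
            push Not at hc
            exact h1 (suffix_of_le h2 hab hc)
      · have h1 : ¬ nd k <:+ p.1 := fun h => h2 (h.trans hab)
        rw [if_neg h2, if_neg h1, if_neg]
        · ring
        · intro h
          rw [mem_rho] at h
          exact h2 (hiff.1 h).1
    rw [Finset.sum_congr rfl e1]
    apply treeSys.sum_idx F rho (fun p hp => rho_seg (hF.1 p hp))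
    intro p hp q hq hne
    rw [Finset.disjoint_left]
    intro k hk hk'
    rw [mem_rho] at hk hk'
    exact hF.2 p hp q hq hne _ ⟨hk, hk'⟩
  · apply treeSys.norm_le (norm_nonneg _)
    intro P hP
    have hac : ∀ s : Finset (List Bool), ∃ q : List Bool × List Bool, s ∈ P →
        q.1 <+: q.2 ∧ ∀ b, b ∈ s ↔ q.1 <+: b ∧ b <+: q.2 := by
      intro s
      by_cases hs : s ∈ P
      · obtain ⟨a, c, h1, h2⟩ := hP.1 s hs
        exact ⟨(a, c), fun _ => ⟨h1, h2⟩⟩
      · exact ⟨([], []), fun h => absurd h hs⟩
    choose q hq using hac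
    have e1 : ∀ s ∈ P, (∑ a ∈ s, treeSys.toF x a) ^ 2 =
        ‖ev (nd (q s).2) (im x) - ev (nd (q s).1).tail (im x)‖ ^ 2 := by
      intro s hs
      rw [ev_im, ev_im, ← Finset.sum_sub_distrib, Real.norm_eq_abs, sq_abs]
      congr 1
      have e2 := sum_ite_support (ct x) s
      rw [← e2]
      apply Finset.sum_congr rfl
      intro k _
      have hmem := (hq s hs).2 k
      have hac := (hq s hs).1
      by_cases c1 : k <+: (q s).2
      · by_cases c2 : k <+: (q s).1 ∧ k ≠ (q s).1
        · rw [if_pos (nd_suffix.2 c1), if_pos (nd_tail.2 c2), if_neg]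
          · ring
          · intro h
            have h1 := (hmem.1 h).1
            exact c2.2 (c2.1.eq_of_length (le_antisymm c2.1.length_le h1.length_le))
        · rw [if_pos (nd_suffix.2 c1), if_neg (fun h => c2 (nd_tail.1 h)), if_pos]
          · ring
          · apply hmem.2
            refine ⟨?_, c1⟩
            rcases List.prefix_or_prefix_of_prefix c1 hac with h | h
            · have : k = (q s).1 := by
                by_contra hne
                exact c2 ⟨h, hne⟩
              rw [this]
            · exact h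
      · rw [if_neg (fun h => c1 (nd_suffix.1 h)),
          if_neg (fun h => c1 ((nd_tail.1 h).1.trans hac)), if_neg (fun h => c1 (hmem.1 h).2)]
        ring
    rw [Finset.sum_congr rfl e1]
    have hpath : ∀ s ∈ P, (nd (q s).1).tail <:+ nd (q s).2 := fun s hs =>
      (List.tail_suffix _).trans (nd_suffix.2 (hq s hs).1)
    apply sum_le (im x) P (fun s => ((nd (q s).1).tail, nd (q s).2)) hpath
    intro s hs t ht hne u hu
    obtain ⟨hu1, hu2⟩ := hu
    rw [inn_iff (hpath s hs), List.length_tail, length_nd] at hu1
    rw [inn_iff (hpath t ht), List.length_tail, length_nd] at hu2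
    have hcone : [true] <:+ u :=
      suffix_of_le (cone_nd (q s).2) hu1.1 (by simp only [List.length_singleton]; omega)
    obtain ⟨k, rfl⟩ := exists_nd hcone
    rw [nd_suffix, length_nd] at hu1 hu2
    have h1 : k ∈ s := ((hq s hs).2 k).2
      ⟨List.prefix_of_prefix_length_le (hq s hs).1 hu1.1 (by omega), hu1.1⟩
    have h2 : k ∈ t := ((hq t ht).2 k).2
      ⟨List.prefix_of_prefix_length_le (hq t ht).1 hu2.1 (by omega), hu2.1⟩
    exact Finset.disjoint_left.1 (hP.2 s hs t ht hne) h1 h2

/-! ### the completion -/

/-- the isometric embedding of the finitely supported functions -/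
noncomputable def i0 : T0 →ₗᵢ[ℝ] V ℝ := ⟨im, norm_im⟩

/-- the embedding of the James tree space, as an operator -/
noncomputable def iL : JTree →L[ℝ] V ℝ :=
  i0.toContinuousLinearMap.extend (UniformSpace.Completion.toComplL : T0 →L[ℝ] JTree)

theorem iL_coe (x : T0) : iL (x : JTree) = im x :=
  ContinuousLinearMap.extend_eq (e := (UniformSpace.Completion.toComplL : T0 →L[ℝ] JTree))
    i0.toContinuousLinearMap UniformSpace.Completion.denseRange_coe
    (UniformSpace.Completion.isUniformInducing_coe T0) x

theorem norm_iL (x : JTree) : ‖iL x‖ = ‖x‖ := by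
  refine UniformSpace.Completion.induction_on x ?_ ?_
  · exact isClosed_eq iL.continuous.norm continuous_norm
  · intro a
    rw [iL_coe, norm_im, UniformSpace.Completion.norm_coe]

/-- the isometric embedding of the James tree space -/
noncomputable def ii : JTree →ₗᵢ[ℝ] V ℝ := ⟨iL.toLinearMap, norm_iL⟩

theorem ii_coe (x : T0) : ii (x : JTree) = im x := iL_coe x

theorem closed_range : IsClosed (Set.range ii) := ii.isometry.isClosedEmbedding.isClosed_range

/-! ### the projection -/

/-- the retraction of the nodes on the cone -/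
noncomputable def ret (t : Nd) : Nd := by
  classical
  exact if [true] <:+ t then t else []

theorem ret_pos {t : Nd} (h : [true] <:+ t) : ret t = t := by
  unfold ret
  rw [if_pos h]

theorem ret_neg {t : Nd} (h : ¬ [true] <:+ t) : ret t = [] := by
  unfold ret
  rw [if_neg h]

theorem ret_nil : ret [] = [] := by
  by_cases h : [true] <:+ ([] : Nd)
  · exact ret_pos h
  · exact ret_neg h

theorem exRet : ∃ T : V ℝ →L[ℝ] V ℝ, (∀ x t, ev t (T x) = ev (ret t) x) ∧ ∀ x, ‖T x‖ ≤ ‖x‖ := by
  have key : ∀ a b : Nd, a <:+ b → ∀ t, Inn t (ret a, ret b) → Inn t (a, b) := by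
    intro a b hab t ht
    obtain ⟨h1, h2, h3⟩ := ht
    simp only at h1 h2 h3
    by_cases hb : [true] <:+ b
    · rw [ret_pos hb] at h3
      by_cases ha : [true] <:+ a
      · rw [ret_pos ha] at h1 h2
        exact ⟨h1, h2, h3⟩
      · have ha0 : a = [] := by
          rcases suffix_total hb hab with h | h
          · exact absurd h ha
          · by_contra hne
            have h4 := h.length_le
            have h5 : a.length ≠ 0 := fun h6 => hne (List.length_eq_zero_iff.1 h6)
            have h6 : a = [true] := h.eq_of_length (by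
              simp only [List.length_singleton] at h4 ⊢
              omega)
            exact ha (by rw [h6])
        rw [ret_neg ha] at h1 h2
        rw [ha0]
        exact ⟨h1, h2, h3⟩
    · have ha : ¬ [true] <:+ a := fun h => hb (h.trans hab)
      rw [ret_neg hb] at h3
      rw [ret_neg ha] at h2
      exact absurd (List.suffix_nil.1 h3) h2
  obtain ⟨T, hT1, hT2⟩ := exists_comp (𝕜 := ℝ) ret (by
    intro a b hab
    by_cases ha : [true] <:+ a
    · rw [ret_pos ha, ret_pos (ha.trans hab)]
      exact hab
    · rw [ret_neg ha]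
      exact List.nil_suffix) (by
    intro a b a' b' hab hab' hd t ht
    exact hd t ⟨key a b hab t ht.1, key a' b' hab' t ht.2⟩)
  refine ⟨T, fun x t => ?_, hT2⟩
  rw [hT1, ret_nil, ev_nil, sub_zero]

/-- the projection on the cone -/
noncomputable def RT : V ℝ →L[ℝ] V ℝ := exRet.choose

theorem ev_RT (x : V ℝ) (t : Nd) : ev t (RT x) = ev (ret t) x := exRet.choose_spec.1 x t

theorem RT_le (x : V ℝ) : ‖RT x‖ ≤ ‖x‖ := exRet.choose_spec.2 x

theorem RT_ee (s : Nd) : RT (ee s : V ℝ) = if [true] <:+ s then ee s else 0 := by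
  apply ext_ev
  intro t
  rw [ev_RT, ev_ee]
  by_cases ht : [true] <:+ t
  · rw [ret_pos ht]
    by_cases hs : [true] <:+ s
    · rw [if_pos hs, ev_ee]
    · rw [if_neg hs, map_zero, if_neg]
      rintro ⟨h1, h2⟩
      rcases suffix_total ht h1 with h | h
      · exact hs h
      · have h4 := h.length_le
        have h5 : s.length ≠ 0 := fun h6 => h2 (List.length_eq_zero_iff.1 h6)
        have h6 : s = [true] := h.eq_of_length (by
          simp only [List.length_singleton] at h4 ⊢
          omega)
        exact hs (by rw [h6])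
  · rw [ret_neg ht, if_neg]
    · by_cases hs : [true] <:+ s
      · rw [if_pos hs, ev_ee, if_neg]
        rintro ⟨h1, _⟩
        exact ht (hs.trans h1)
      · rw [if_neg hs, map_zero]
    · rintro ⟨h1, h2⟩
      exact h2 (List.suffix_nil.1 h1)

theorem RT_im (x : T0) : RT (im x) = im x := by
  rw [im_eq, map_sum]
  apply Finset.sum_congr rfl
  intro k _
  rw [map_smul, RT_ee, if_pos (cone_nd k)]

theorem RT_ii (x : JTree) : RT (ii x) = ii x := by
  refine UniformSpace.Completion.induction_on x ?_ ?_
  · exact isClosed_eq (RT.continuous.comp ii.continuous) ii.continuous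
  · intro a
    rw [ii_coe, RT_im]

theorem RT_mem (v : V ℝ) : RT v ∈ LinearMap.range ii.toLinearMap := by
  set C : Submodule ℝ (V ℝ) := LinearMap.range ii.toLinearMap with hC
  have hee : ∀ s : Nd, RT (ee s) ∈ C := by
    intro s
    rw [RT_ee]
    split_ifs with h
    · obtain ⟨a, rfl⟩ := exists_nd h
      refine ⟨((ct.symm (Finsupp.single a 1) : T0) : JTree), ?_⟩
      show ii _ = _
      rw [ii_coe]
      show Finsupp.linearCombination ℝ (fun a => (ee (nd a) : V ℝ))
        (ct (ct.symm (Finsupp.single a 1))) = _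
      rw [LinearEquiv.apply_symm_apply, Finsupp.linearCombination_single, one_smul]
    · exact C.zero_mem
  have hPP : ∀ n, RT (PP n v) ∈ C := by
    intro n
    induction n with
    | zero =>
      rw [PP_zero, map_zero]
      exact C.zero_mem
    | succ n ih =>
      rw [PP_succ, map_add, map_sum]
      apply C.add_mem ih
      apply C.sum_mem
      intro s _
      rw [map_smul]
      exact C.smul_mem _ (hee s)
  have hcl : IsClosed (C : Set (V ℝ)) := closed_range
  exact hcl.mem_of_tendsto ((RT.continuous.tendsto _).comp (tendsto_PP v))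
    (Eventually.of_forall hPP)

/-- the norm one projection onto the James tree space -/
noncomputable def pr : V ℝ →L[ℝ] JTree :=
  (ii.equivRange.symm.toContinuousLinearEquiv : _ →L[ℝ] JTree).comp
    (RT.codRestrict (LinearMap.range ii.toLinearMap) RT_mem)

theorem pr_ii (x : JTree) : pr (ii x) = x := by
  show ii.equivRange.symm _ = x
  rw [LinearIsometryEquiv.symm_apply_eq]
  apply Subtype.ext
  exact RT_ii x

/-- the adjoint of the projection -/
noncomputable def prd : StrongDual ℝ JTree →L[ℝ] Wd :=
  (ContinuousLinearMap.compL ℝ (V ℝ) JTree ℝ).flip pr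

theorem prd_apply (φ : StrongDual ℝ JTree) (v : V ℝ) : prd φ v = φ (pr v) := rfl

theorem le_prd (φ : StrongDual ℝ JTree) : ‖φ‖ ≤ ‖prd φ‖ := by
  apply ContinuousLinearMap.opNorm_le_bound _ (ContinuousLinearMap.opNorm_nonneg _)
  intro x
  have h1 : φ x = prd φ (ii x) := by rw [prd_apply, pr_ii]
  rw [h1, ← ii.norm_map x]
  exact (prd φ).le_opNorm _

/-- restriction of functionals to the finitely supported functions -/
noncomputable def res : StrongDual ℝ JSp →L[ℝ] StrongDual ℝ J0 :=
  (ContinuousLinearMap.compL ℝ J0 JSp ℝ).flip (UniformSpace.Completion.toComplL : J0 →L[ℝ] JSp)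

theorem res_apply (h : StrongDual ℝ JSp) (x : J0) : res h x = h (x : JSp) := rfl

theorem le_res (h : StrongDual ℝ JSp) : ‖h‖ ≤ ‖res h‖ := by
  apply ContinuousLinearMap.opNorm_le_bound _ (ContinuousLinearMap.opNorm_nonneg _)
  intro x
  refine UniformSpace.Completion.induction_on x ?_ ?_
  · exact isClosed_le h.continuous.norm (continuous_const.mul continuous_norm)
  · intro a
    rw [← res_apply, UniformSpace.Completion.norm_coe]
    exact (res h).le_opNorm _

/-- **Main theorem.** -/
theorem main (Y : Submodule ℝ (StrongDual ℝ JTree)) (hcl : IsClosed (Y : Set (StrongDual ℝ JTree)))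
    (hY : ¬ Function.Surjective (NormedSpace.inclusionInDoubleDual ℝ Y)) :
    ∃ Z : Submodule ℝ (StrongDual ℝ JTree), Z ≤ Y ∧ IsClosed (Z : Set (StrongDual ℝ JTree)) ∧
      Nonempty (StrongDual ℝ JSp ≃L[ℝ] Z) := by
  have : CompleteSpace Y := hcl.completeSpace_coe
  obtain ⟨T, κ, hκ, hT⟩ := main_abstract (Y := Y) (prd.comp Y.subtypeL) one_pos (by
    intro y
    rw [one_mul]
    exact le_prd y.1) hY
  let S : StrongDual ℝ JSp →L[ℝ] StrongDual ℝ JTree := Y.subtypeL.comp (T.comp res)
  have hS : ∀ h, κ * ‖h‖ ≤ ‖S h‖ := by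
    intro h
    calc κ * ‖h‖ ≤ κ * ‖res h‖ := mul_le_mul_of_nonneg_left (le_res h) hκ.le
      _ ≤ ‖T (res h)‖ := hT _
      _ = ‖S h‖ := rfl
  have hanti : AntilipschitzWith (Real.toNNReal κ⁻¹) S := by
    apply ContinuousLinearMap.antilipschitz_of_bound
    intro h
    rw [Real.coe_toNNReal _ (by positivity)]
    have := hS h
    rw [inv_mul_eq_div, le_div_iff₀ hκ]
    linarith
  have hrange : IsClosed (Set.range S) := hanti.isClosed_range S.uniformContinuous
  refine ⟨LinearMap.range S.toLinearMap, ?_, hrange, ⟨S.equivRange hanti.injective hrange⟩⟩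
  rintro _ ⟨h, rfl⟩
  exact (T (res h)).2

end Pool.Agent.Q199.JT
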